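import Pool.Agent.KR7.Trim

/-!
# Many very negative sets
-/

namespace Pool.Agent.KR7

open Finset AK Pool.Agent.KR5 Pool.Agent.KR6

section
variable {ι : Type*} [DecidableEq ι]

/-- the case `a ≥ 2 c` -/
theorem case_big {κ N : ℕ} (hκ : 1 ≤ κ) (hN1 : 11 * (κ + 1) ≤ N) (Q : Finset ι) (y : ι → ℝ)
    (hy : ∀ i ∈ Q, y i ≤ 1) (hN : Q.card = N) (hs : -1 ≤ ∑ x ∈ Q, y x) {a b : ℝ}
    (ha : (low κ y Q : ℝ) = a * (N.choose κ : ℝ)) (ha1 : a ≤ 1)
    (hb : (KR5.pos (κ + 1) y Q : ℝ) = b * (N.choose (κ + 1) : ℝ))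
    (h2 : 2 * (((κ : ℝ) + 1) / N) ≤ a) : a ≤ 11 * b := by
  by_contra hcon
  push Not at hcon
  subst hN
  have hk2 : 2 ≤ κ + 1 := by omega
  have hM10 : 10 * (κ + 1) ≤ Q.card := by omega
  have hMr : 11 * ((κ : ℝ) + 1) ≤ Q.card := by exact_mod_cast hN1
  have hκr : (1 : ℝ) ≤ κ := by exact_mod_cast hκ
  have hM0 : (0 : ℝ) < Q.card := by linarith
  have hC : (0 : ℝ) < (Q.card.choose (κ + 1) : ℝ) := by exact_mod_cast Nat.choose_pos (by omega)
  obtain ⟨c, hc⟩ : ∃ c : ℝ, c = ((κ : ℝ) + 1) / Q.card := ⟨_, rfl⟩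
  have hc0 : 0 < c := by rw [hc]; positivity
  have hc11 : c ≤ 1 / 11 := by
    rw [hc, div_le_div_iff₀ hM0 (by norm_num)]
    linarith
  have hcM : c * Q.card = (κ : ℝ) + 1 := by rw [hc]; field_simp
  rw [← hc] at h2
  have hb0 : 0 ≤ b := by
    by_contra h
    push Not at h
    have h1 : (0 : ℝ) ≤ KR5.pos (κ + 1) y Q := Nat.cast_nonneg _
    rw [hb] at h1
    nlinarith
  obtain ⟨q, hq⟩ : ∃ q, q = 5 / 4 * b := ⟨_, rfl⟩
  have hq1 : q ≤ 5 / 44 * a := by rw [hq]; linarith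
  obtain ⟨R, r, β, μ, T⟩ := KR7.exists_trim (ζ := 1) (τ := 1) (q := q) Q y hk2 hM10 hy hs
    (by linarith) (by rw [hq, hb]; linarith)
  obtain ⟨hkr, _, h56, hRM, _, _, _, hR0⟩ := T.nums hk2 hM10
  obtain ⟨k, hk⟩ : ∃ k : ℝ, k = ((κ + 1 : ℕ) : ℝ) := ⟨_, rfl⟩
  have hk' : k = (κ : ℝ) + 1 := by rw [hk]; push_cast; ring
  rw [← hk] at hkr
  -- the mean
  have hE := esp Q y κ (by omega) (θ := 1) (τ := 1) (γ := a) (by norm_num) le_rfl hs
    (by linarith) ha1 (by rw [← ha]; exact le_rfl)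
  rw [← hc] at hE
  have hx0 : 0 ≤ a * 1 - c * 1 := by linarith
  have hcs := cs Q R y (κ + 1) (by omega) T.off hx0 hE
  have hez0 := ez_nonneg y (κ + 1) R Q
  have h1 : (Q.card.choose (κ + 1) : ℝ) * (a * 1 - c * 1) ^ 2
      ≤ (Q.card.choose (κ + 1) : ℝ) * (b * ez y (κ + 1) R Q) := by
    calc _ ≤ _ := hcs
      _ = _ := by rw [hb]; ring
  have h4 := le_of_mul_le_mul_left h1 hC
  rw [mul_one, mul_one] at h4
  have hez := T.ez hk2 hM10
  obtain ⟨V, hV⟩ : ∃ V, V = vr (fun x => y x - μ) (κ + 1) R := ⟨_, rfl⟩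
  have hV0 := T.vnn hk2 hM10
  rw [← hV] at hez hV0
  rw [← hk] at hez
  obtain ⟨X, hX⟩ : ∃ X, X = ez y (κ + 1) R Q := ⟨_, rfl⟩
  rw [← hX] at hez h4 hez0
  -- numbers
  have hc' : k / R.card ≤ 10 / 9 * c := by
    rw [div_le_iff₀ hR0]
    have h5 : c * (9 / 10 * Q.card) ≤ c * R.card := mul_le_mul_of_nonneg_left h56 hc0.le
    linarith
  have hc'0 : 0 ≤ k / R.card := by positivity
  have htl := T.t_low hk2 hM10
  rw [← hk] at htl
  have hβ := T.beta
  obtain ⟨t, ht⟩ : ∃ t, t = k * μ := ⟨_, rfl⟩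
  rw [← ht] at htl hez
  have hq0 := T.q_nonneg
  have hba : b * b ≤ (a / 11) * (a / 11) := mul_le_mul (by linarith) (by linarith) hb0 (by linarith)
  rcases le_or_gt 0 μ with hμ | hμ
  · have h6 := T.v_pos hk2 hM10 hμ one_pos le_rfl (by rw [← hk]; linarith)
    have h7 := T.t_sq hk2 hM10 hμ
    rw [← hV] at h6 h7
    rw [← hk, ← ht] at h7
    have h9 : V ≤ 10 * q := by
      have h8 : q * (3 * V) ≤ 5 / 44 * (3 * V) :=
        mul_le_mul_of_nonneg_right (by linarith) (by positivity)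
      linarith
    have h10 : t ^ 2 ≤ 2 / 15 * V := by
      have h8 : q * (t ^ 2 + V) ≤ 5 / 44 * (t ^ 2 + V) :=
        mul_le_mul_of_nonneg_right (by linarith) (by positivity)
      linarith
    have h11 : b * X ≤ b * (15 * b) := by
      apply mul_le_mul_of_nonneg_left _ hb0
      linarith
    have h12 : (a / 2) ^ 2 ≤ (a - c) ^ 2 := pow_le_pow_left₀ (by linarith) (by linarith) 2
    have ha0 : 0 < a := by linarith
    have ha2 : 0 < a * a := mul_pos ha0 ha0
    linarith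
  · have ht0 : t ≤ 0 := by rw [ht]; nlinarith
    have htl2 : -t ≤ 10 / 9 * c := by linarith
    have hμ2 : -μ ≤ 1 / 18 := by
      have : k * (-μ) ≤ 10 / 9 * c := by
        have e : k * (-μ) = -t := by rw [ht]; ring
        rw [e]
        exact htl2
      nlinarith
    have ht2 : t ^ 2 ≤ 100 / 891 * c := by
      have : (-t) * (-t) ≤ 10 / 9 * c * (10 / 9 * (1 / 11)) :=
        mul_le_mul htl2 (by linarith) (by linarith) (by positivity)
      linarith
    rcases le_or_gt a (1 / 2) with ha2 | ha2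
    · have h6 := T.v_neg hk2 hM10 hμ.le (B := 19 / 18) (by norm_num) (by linarith) (by linarith)
        (g := 2) (by norm_num)
      rw [← hV, ← hk, ← ht] at h6
      have h8 : (q + 49 / 200 * (-t) / 2) * (3 * V + (19 / 18) ^ 2)
          ≤ (q + 49 / 360 * c) * (3 * V + 28 / 25) :=
        mul_le_mul (by linarith) (by linarith) (by positivity) (by positivity)
      have h8' : (q + 49 / 360 * c) * (3 * V) ≤ (5 / 88 + 49 / 3960) * (3 * V) :=
        mul_le_mul_of_nonneg_right (by linarith) (by positivity)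
      have h9 : V ≤ 29 / 5 * b + 33 / 10 * c := by linarith
      have h11 : b * X ≤ b * (29 / 5 * b + 7 / 2 * c) := by
        apply mul_le_mul_of_nonneg_left _ hb0
        linarith
      have h12 : (a / 2) ^ 2 ≤ (a - c) ^ 2 := pow_le_pow_left₀ (by linarith) (by linarith) 2
      have h14 : b * c ≤ (a / 11) * (a / 2) :=
        mul_le_mul (by linarith) (by linarith) hc0.le (by linarith)
      have ha0 : 0 < a := by linarith
      have ha2 : 0 < a * a := mul_pos ha0 ha0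
      linarith
    · have h6 := T.v_neg hk2 hM10 hμ.le (B := 19 / 18) (by norm_num) (by linarith) (by linarith)
        (g := 4) (by norm_num)
      rw [← hV, ← hk, ← ht] at h6
      have h8 : (q + 49 / 200 * (-t) / 4) * (3 * V + (19 / 18) ^ 2)
          ≤ (q + 49 / 720 * c) * (3 * V + 28 / 25) :=
        mul_le_mul (by linarith) (by linarith) (by positivity) (by positivity)
      have h8' : (q + 49 / 720 * c) * (3 * V) ≤ (5 / 44 + 49 / 7920) * (3 * V) :=
        mul_le_mul_of_nonneg_right (by linarith) (by positivity)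
      have h9 : V ≤ 31 / 2 * b + 14 * c := by linarith
      have h11 : b * X ≤ b * (31 / 2 * b + 71 / 5 * c) := by
        apply mul_le_mul_of_nonneg_left _ hb0
        linarith
      have h12 : (a - 1 / 11) ^ 2 ≤ (a - c) ^ 2 := pow_le_pow_left₀ (by linarith) (by linarith) 2
      have h14 : b * c ≤ (a / 11) * (1 / 11) :=
        mul_le_mul (by linarith) hc11 hc0.le (by linarith)
      have h15 : 1 / 2 * a ≤ a * a := mul_le_mul_of_nonneg_right ha2.le (by linarith)
      nlinarith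

end

end Pool.Agent.KR7
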