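import Pool.Agent.KR7.Trim
import Pool.Agent.KR6.Lam

/-!
# Populations of positive total: almost the conjectured number of positive sets
-/

namespace Pool.Agent.KR7

open Finset AK Pool.Agent.KR5 Pool.Agent.KR6

section
variable {ι : Type*} [DecidableEq ι]

/-- the contradiction: large `γ` -/
theorem lam_core {κ : ℕ} (hκ : 1 ≤ κ) (P : Finset ι) (y : ι → ℝ) (hM : 10 * (κ + 1) ≤ P.card)
    (hy : ∀ x ∈ P, y x ≤ 1) (hs : -1 ≤ ∑ x ∈ P, y x) {u : ℝ} (hu0 : 0 ≤ u) (hu1 : u ≤ 5 / 6)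
    (hg : (u + 1 / 6) * (P.card.choose κ : ℝ)
      ≤ (((powersetCard κ P).filter (fun W => ∑ x ∈ W, y x ≤ -1)).card : ℝ)) :
    u / 9 * (P.card.choose (κ + 1) : ℝ) < KR5.pos (κ + 1) y P := by
  by_contra hcon
  push Not at hcon
  have hk2 : 2 ≤ κ + 1 := by omega
  have hMr : 10 * ((κ : ℝ) + 1) ≤ P.card := by exact_mod_cast hM
  have hκr : (1 : ℝ) ≤ κ := by exact_mod_cast hκ
  have hM0 : (0 : ℝ) < P.card := by linarith
  have hC : (0 : ℝ) < (P.card.choose (κ + 1) : ℝ) := by exact_mod_cast Nat.choose_pos (by omega)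
  obtain ⟨q, hq⟩ : ∃ q, q = 5 / 36 * u := ⟨_, rfl⟩
  obtain ⟨R, r, β, μ, T⟩ := KR7.exists_trim (ζ := 1) (τ := 1) (q := q) P y hk2 hM hy hs
    (by linarith) (by rw [hq]; linarith)
  obtain ⟨hkr, _, h56, hRM, _, _, _, hR0⟩ := T.nums hk2 hM
  obtain ⟨k, hk⟩ : ∃ k : ℝ, k = ((κ + 1 : ℕ) : ℝ) := ⟨_, rfl⟩
  have hk' : k = (κ : ℝ) + 1 := by rw [hk]; push_cast; ring
  rw [← hk] at hkr
  -- the mean
  have hE := esp P y κ (by omega) (θ := 1) (τ := 1) (γ := u + 1 / 6) (by norm_num) le_rfl hs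
    (by linarith) (by linarith) hg
  have hcM : ((κ : ℝ) + 1) / P.card ≤ 1 / 10 := by
    rw [div_le_div_iff₀ hM0 (by norm_num)]
    linarith
  have hx0 : 0 ≤ (u + 1 / 6) * 1 - ((κ : ℝ) + 1) / P.card * 1 := by linarith
  have hcs := cs P R y (κ + 1) (by omega) T.off hx0 hE
  have hez0 := ez_nonneg y (κ + 1) R P
  have h1 : (P.card.choose (κ + 1) : ℝ) * ((u + 1 / 6) * 1 - ((κ : ℝ) + 1) / P.card * 1) ^ 2
      ≤ (P.card.choose (κ + 1) : ℝ) * (u / 9 * ez y (κ + 1) R P) := by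
    calc _ ≤ _ := hcs
      _ ≤ (u / 9 * (P.card.choose (κ + 1) : ℝ)) * ez y (κ + 1) R P :=
          mul_le_mul_of_nonneg_right hcon hez0
      _ = _ := by ring
  have h2 := le_of_mul_le_mul_left h1 hC
  have h3 : (u + 1 / 15) ^ 2 ≤ ((u + 1 / 6) * 1 - ((κ : ℝ) + 1) / P.card * 1) ^ 2 :=
    pow_le_pow_left₀ (by linarith) (by linarith) 2
  have h4 := h3.trans h2
  have hez := T.ez hk2 hM
  obtain ⟨V, hV⟩ : ∃ V, V = vr (fun x => y x - μ) (κ + 1) R := ⟨_, rfl⟩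
  have hV0 := T.vnn hk2 hM
  rw [← hV] at hez hV0
  rw [← hk] at hez
  -- numbers
  have hc' : k / R.card ≤ 1 / 9 := by
    rw [div_le_div_iff₀ hR0 (by norm_num), hk']
    linarith
  have hc'0 : 0 ≤ k / R.card := by positivity
  have htl := T.t_low hk2 hM
  rw [← hk] at htl
  have hβ := T.beta
  obtain ⟨t, ht⟩ : ∃ t, t = k * μ := ⟨_, rfl⟩
  rw [← ht] at htl hez
  have hq0 := T.q_nonneg
  rcases le_or_gt 0 μ with hμ | hμ
  · have h6 := T.v_pos hk2 hM hμ one_pos le_rfl (by rw [← hk]; linarith)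
    have h7 := T.t_sq hk2 hM hμ
    rw [← hV] at h6 h7
    rw [← hk, ← ht] at h7
    have h9 : V ≤ 10 * q := by
      have h8 : q * (3 * V) ≤ 25 / 216 * (3 * V) :=
        mul_le_mul_of_nonneg_right (by linarith) (by positivity)
      linarith
    have h10 : t ^ 2 ≤ 2 / 15 * V := by
      have h8 : q * (t ^ 2 + V) ≤ 25 / 216 * (t ^ 2 + V) :=
        mul_le_mul_of_nonneg_right (by linarith) (by positivity)
      linarith
    have h11 : u / 9 * ez y (κ + 1) R P ≤ u / 9 * (12 * q) := by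
      apply mul_le_mul_of_nonneg_left _ (by positivity)
      linarith
    rw [hq] at h11
    nlinarith
  · have ht0 : t ≤ 0 := by rw [ht]; nlinarith
    have htl2 : -t ≤ 1 / 9 := by linarith
    have hμ2 : -μ ≤ 1 / 18 := by
      have : k * (-μ) ≤ 1 / 9 := by
        have e : k * (-μ) = -t := by rw [ht]; ring
        rw [e]
        exact htl2
      nlinarith
    have h6 := T.v_neg hk2 hM hμ.le (B := 19 / 18) (by norm_num) (by linarith) (by linarith)
      (g := 4) (by norm_num)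
    rw [← hV, ← hk, ← ht] at h6
    have h8 : (q + 49 / 200 * (-t) / 4) * (3 * V + (19 / 18) ^ 2)
        ≤ (q + 49 / 7200) * (3 * V + 28 / 25) :=
      mul_le_mul (by linarith) (by linarith) (by positivity) (by linarith)
    have h8' : q * (3 * V) ≤ 25 / 216 * (3 * V) :=
      mul_le_mul_of_nonneg_right (by linarith) (by positivity)
    have ht2 : t ^ 2 ≤ 1 / 81 := by nlinarith
    have h9 : V ≤ 19 / 10 * u + 39 / 25 := by
      have e : (q + 49 / 7200) * (3 * V + 28 / 25)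
          = q * (3 * V) + 28 / 25 * q + 49 / 7200 * (3 * V) + 49 / 7200 * (28 / 25) := by ring
      rw [e] at h8
      linarith
    have h11 : u / 9 * ez y (κ + 1) R P ≤ u / 9 * (19 / 10 * u + 79 / 50) := by
      apply mul_le_mul_of_nonneg_left _ (by positivity)
      linarith
    nlinarith [sq_nonneg (u - 1 / 37)]

/-- at least `5 / 6` of the conjectured number of positive sets -/
theorem lam {κ : ℕ} (hκ : 1 ≤ κ) (P : Finset ι) (y : ι → ℝ) (hM : 10 * (κ + 1) + 1 ≤ P.card)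
    (hs : 0 < ∑ x ∈ P, y x) :
    5 / 6 * ((P.card - 1).choose κ : ℝ) ≤ KR5.pos (κ + 1) y P := by
  have hne : P.Nonempty := card_pos.1 (by omega)
  obtain ⟨ω, hω, hmax⟩ := exists_max_image P y hne
  have h0 : 0 < y ω := by
    by_contra hcon
    push Not at hcon
    have : ∑ x ∈ P, y x ≤ 0 := sum_nonpos (fun x hx => (hmax x hx).trans hcon)
    linarith
  rw [← pos_scale (κ + 1) y P h0]
  obtain ⟨z, hz⟩ : ∃ z : ι → ℝ, z = fun x => y x / y ω := ⟨_, rfl⟩
  rw [← hz]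
  have hzω : z ω = 1 := by rw [hz]; exact div_self h0.ne'
  have hz1 : ∀ x ∈ P, z x ≤ 1 := by
    intro x hx
    rw [hz]
    show y x / y ω ≤ 1
    rw [div_le_one h0]
    exact hmax x hx
  have hzs : 0 < ∑ x ∈ P, z x := by
    rw [hz]
    show 0 < ∑ x ∈ P, y x / y ω
    rw [← sum_div]
    exact div_pos hs h0
  have hc : (P.erase ω).card = P.card - 1 := card_erase_of_mem hω
  have hes : -1 ≤ ∑ x ∈ P.erase ω, z x := by
    have := add_sum_erase P z hω
    linarith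
  by_contra hcon
  push Not at hcon
  have h1 := split_ge P z κ hω
  have h2 := filter_compl (P.erase ω) z κ 1
  rw [hzω] at h1
  rw [hc] at h2
  obtain ⟨M, hM'⟩ : ∃ M, M = P.card - 1 := ⟨_, rfl⟩
  rw [← hM'] at h2 hcon hc
  obtain ⟨g, hg⟩ : ∃ g : ℕ, g = ((powersetCard κ (P.erase ω)).filter
    (fun V => ∑ x ∈ V, z x ≤ -1)).card := ⟨_, rfl⟩
  rw [← hg] at h2
  have hCκ : (0 : ℝ) < (M.choose κ : ℝ) := by exact_mod_cast Nat.choose_pos (by omega)
  have h1r : (((powersetCard κ (P.erase ω)).filter (fun V => -1 < ∑ x ∈ V, z x)).card : ℝ)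
      + (KR5.pos (κ + 1) z (P.erase ω) : ℝ) ≤ KR5.pos (κ + 1) z P := by exact_mod_cast h1
  have h2r : (((powersetCard κ (P.erase ω)).filter (fun V => -1 < ∑ x ∈ V, z x)).card : ℝ)
      + g = M.choose κ := by exact_mod_cast h2
  obtain ⟨u, hu⟩ : ∃ u : ℝ, u = g / (M.choose κ : ℝ) - 1 / 6 := ⟨_, rfl⟩
  have hgu : (g : ℝ) = (u + 1 / 6) * (M.choose κ : ℝ) := by
    rw [hu]
    field_simp
    ring
  have hp0 : (0 : ℝ) ≤ KR5.pos (κ + 1) z (P.erase ω) := Nat.cast_nonneg _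
  have hu0 : 0 ≤ u := by
    by_contra h
    push Not at h
    have : (g : ℝ) ≤ 1 / 6 * (M.choose κ : ℝ) := by rw [hgu]; nlinarith
    linarith
  have hu1 : u ≤ 5 / 6 := by
    by_contra h
    push Not at h
    have h3 : (M.choose κ : ℝ) < g := by rw [hgu]; nlinarith
    have h4 : (0 : ℝ) ≤ (((powersetCard κ (P.erase ω)).filter
      (fun V => -1 < ∑ x ∈ V, z x)).card : ℝ) := Nat.cast_nonneg _
    linarith
  have h3 := lam_core hκ (P.erase ω) z (by rw [hc]; omega)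
    (fun x hx => hz1 x (mem_of_mem_erase hx)) hes hu0 hu1 (by rw [hc, ← hg, hgu])
  rw [hc] at h3
  have h4 := choose_rel' M κ (by omega)
  have hMr : 10 * ((κ : ℝ) + 1) ≤ M := by
    have : 10 * (κ + 1) ≤ M := by omega
    exact_mod_cast this
  have hκ0 : (0 : ℝ) ≤ κ := Nat.cast_nonneg κ
  -- `u C(M, κ) ≤ (u / 9) C(M, κ + 1)`
  have h5 : u * (M.choose κ : ℝ) * (9 * ((κ : ℝ) + 1))
      ≤ u / 9 * (M.choose (κ + 1) : ℝ) * (9 * ((κ : ℝ) + 1)) := by
    have h6 : (9 * ((κ : ℝ) + 1)) ≤ (M : ℝ) - κ := by linarith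
    calc u * (M.choose κ : ℝ) * (9 * ((κ : ℝ) + 1)) ≤ u * (M.choose κ : ℝ) * ((M : ℝ) - κ) :=
          mul_le_mul_of_nonneg_left h6 (by positivity)
      _ = u * ((M.choose (κ + 1) : ℝ) * ((κ : ℝ) + 1)) := by rw [h4]; ring
      _ = _ := by ring
  have h6 : u * (M.choose κ : ℝ) ≤ u / 9 * (M.choose (κ + 1) : ℝ) :=
    le_of_mul_le_mul_right h5 (by positivity)
  rw [hgu] at h2r
  linarith

end

end Pool.Agent.KR7
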