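import Pool.Agent.KR7.Lam

/-!
# Few positive sets: all values are small
-/

namespace Pool.Agent.KR7

open Finset AK Pool.Agent.KR5 Pool.Agent.KR6

section
variable {ι : Type*} [DecidableEq ι]

/-- a dense lower bound -/
theorem dense {κ : ℕ} (hκ : 1 ≤ κ) (P : Finset ι) (y : ι → ℝ) (hM : 11 * (κ + 1) ≤ P.card + 1)
    (hy : ∀ x ∈ P, y x ≤ 1) {τ : ℝ} (hτ : 1 ≤ τ) (hτ2 : ((κ : ℝ) + 1) / P.card * τ ≤ 9 / 20)
    (hs : -τ ≤ ∑ x ∈ P, y x)
    (hg : 81 / 100 * (P.card.choose κ : ℝ)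
      ≤ (((powersetCard κ P).filter (fun W => ∑ x ∈ W, y x ≤ -1)).card : ℝ)) :
    1 / 50 * (P.card.choose (κ + 1) : ℝ) ≤ KR5.pos (κ + 1) y P := by
  by_contra hcon
  push Not at hcon
  have hk2 : 2 ≤ κ + 1 := by omega
  have hM10 : 10 * (κ + 1) ≤ P.card := by omega
  have hMr : 11 * ((κ : ℝ) + 1) ≤ P.card + 1 := by exact_mod_cast hM
  have hκr : (1 : ℝ) ≤ κ := by exact_mod_cast hκ
  have hM0 : (0 : ℝ) < P.card := by linarith
  have hC : (0 : ℝ) < (P.card.choose (κ + 1) : ℝ) := by exact_mod_cast Nat.choose_pos (by omega)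
  obtain ⟨R, r, β, μ, T⟩ := KR7.exists_trim (ζ := 1) (τ := τ) (q := 1 / 40) P y hk2 hM10 hy hs
    (by norm_num) (by linarith)
  obtain ⟨hkr, _, h56, hRM, _, _, _, hR0⟩ := T.nums hk2 hM10
  obtain ⟨k, hk⟩ : ∃ k : ℝ, k = ((κ + 1 : ℕ) : ℝ) := ⟨_, rfl⟩
  have hk' : k = (κ : ℝ) + 1 := by rw [hk]; push_cast; ring
  rw [← hk] at hkr
  -- the mean
  have hE := esp P y κ (by omega) (θ := 1) (τ := τ) (γ := 81 / 100) (by norm_num) hτ hs
    (by norm_num) (by norm_num) hg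
  have hx0 : 0 ≤ 81 / 100 * 1 - ((κ : ℝ) + 1) / P.card * τ := by linarith
  have hcs := cs P R y (κ + 1) (by omega) T.off hx0 hE
  have hez0 := ez_nonneg y (κ + 1) R P
  have h1 : (P.card.choose (κ + 1) : ℝ) * (81 / 100 * 1 - ((κ : ℝ) + 1) / P.card * τ) ^ 2
      ≤ (P.card.choose (κ + 1) : ℝ) * (1 / 50 * ez y (κ + 1) R P) := by
    calc _ ≤ _ := hcs
      _ ≤ (1 / 50 * (P.card.choose (κ + 1) : ℝ)) * ez y (κ + 1) R P :=
          mul_le_mul_of_nonneg_right hcon.le hez0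
      _ = _ := by ring
  have h2 := le_of_mul_le_mul_left h1 hC
  have h3 : (9 / 25 : ℝ) ^ 2 ≤ (81 / 100 * 1 - ((κ : ℝ) + 1) / P.card * τ) ^ 2 :=
    pow_le_pow_left₀ (by norm_num) (by linarith) 2
  have h4 := h3.trans h2
  have hez := T.ez hk2 hM10
  obtain ⟨V, hV⟩ : ∃ V, V = vr (fun x => y x - μ) (κ + 1) R := ⟨_, rfl⟩
  have hV0 := T.vnn hk2 hM10
  rw [← hV] at hez hV0
  rw [← hk] at hez
  -- numbers
  have hc' : k / R.card * τ ≤ 1 / 2 := by
    rw [← hk', div_mul_eq_mul_div, div_le_iff₀ hM0] at hτ2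
    rw [div_mul_eq_mul_div, div_le_iff₀ hR0]
    linarith
  have htl := T.t_low hk2 hM10
  rw [← hk] at htl
  have hβ := T.beta
  obtain ⟨t, ht⟩ : ∃ t, t = k * μ := ⟨_, rfl⟩
  rw [← ht] at htl hez
  rcases le_or_gt 0 μ with hμ | hμ
  · have h6 := T.v_pos hk2 hM10 hμ (Z := 15 / 4) (by norm_num) (by norm_num)
      (by rw [← hk]; linarith)
    have h7 := T.t_sq hk2 hM10 hμ
    rw [← hV] at h6 h7
    rw [← hk, ← ht] at h7
    linarith
  · have ht0 : t ≤ 0 := by rw [ht]; nlinarith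
    have htl2 : -t ≤ 1 / 2 := by linarith
    have hμ2 : -μ ≤ 1 / 4 := by
      have : k * (-μ) ≤ 1 / 2 := by
        have e : k * (-μ) = -t := by rw [ht]; ring
        rw [e]
        exact htl2
      nlinarith
    have h6 := T.v_neg hk2 hM10 hμ.le (B := 15 / 4) (by norm_num) (by linarith) (by linarith)
      (g := 4) (by norm_num)
    rw [← hV, ← hk, ← ht] at h6
    have h8 : (1 / 40 + 49 / 200 * (-t) / 4) * (3 * V + (15 / 4) ^ 2)
        ≤ (1 / 40 + 49 / 1600) * (3 * V + (15 / 4) ^ 2) :=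
      mul_le_mul_of_nonneg_right (by linarith) (by positivity)
    have ht2 : t ^ 2 ≤ 1 / 4 := by nlinarith
    linarith

/-- few positive sets: all values are small -/
theorem all_small {κ N : ℕ} (hκ : 1 ≤ κ) (hN1 : 11 * (κ + 1) ≤ N) (Q : Finset ι) (y : ι → ℝ)
    (hy : ∀ i ∈ Q, y i ≤ 1) (hN : Q.card = N) (hs : -1 ≤ ∑ x ∈ Q, y x)
    (hb : (KR5.pos (κ + 1) y Q : ℝ) ≤ 2 / 11 * ((N - 1).choose κ : ℝ)) :
    ∀ x ∈ Q, y x < 3 * (((κ : ℝ) + 1) / N) := by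
  intro x hx
  by_contra hcon
  push Not at hcon
  obtain ⟨ω, hω, hmax⟩ := exists_max_image Q y ⟨x, hx⟩
  have hNr : 11 * ((κ : ℝ) + 1) ≤ N := by exact_mod_cast hN1
  have hκr : (1 : ℝ) ≤ κ := by exact_mod_cast hκ
  have hN0 : (0 : ℝ) < N := by linarith
  have hζ : 3 * (((κ : ℝ) + 1) / N) ≤ y ω := hcon.trans (hmax x hx)
  have hζ2 : 3 * ((κ : ℝ) + 1) ≤ y ω * N := by
    rw [mul_div_assoc', div_le_iff₀ hN0] at hζ
    exact hζ
  have h0 : 0 < y ω := lt_of_lt_of_le (by positivity) hζ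
  have hζ1 : y ω ≤ 1 := hy ω hω
  rw [← pos_scale (κ + 1) y Q h0] at hb
  obtain ⟨z, hz⟩ : ∃ z : ι → ℝ, z = fun x => y x / y ω := ⟨_, rfl⟩
  rw [← hz] at hb
  have hzω : z ω = 1 := by rw [hz]; exact div_self h0.ne'
  have hz1 : ∀ x ∈ Q, z x ≤ 1 := by
    intro x hx
    rw [hz]
    show y x / y ω ≤ 1
    rw [div_le_one h0]
    exact hmax x hx
  have hzs : -(1 / y ω) ≤ ∑ x ∈ Q, z x := by
    rw [hz]
    show -(1 / y ω) ≤ ∑ x ∈ Q, y x / y ω
    rw [← sum_div, ← neg_div]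
    exact div_le_div_of_nonneg_right hs h0.le
  have hc : (Q.erase ω).card = N - 1 := by rw [card_erase_of_mem hω, hN]
  obtain ⟨M, hM'⟩ : ∃ M, N = M + 1 := ⟨N - 1, by omega⟩
  rw [hM', Nat.add_sub_cancel] at hc hb
  have hMr : (N : ℝ) = M + 1 := by rw [hM']; push_cast; ring
  have hes : -(1 + 1 / y ω) ≤ ∑ x ∈ Q.erase ω, z x := by
    have := add_sum_erase Q z hω
    linarith
  have h1 := insert_count Q z κ hω (Q.erase ω) (Subset.refl _)
  have h2 := filter_compl (Q.erase ω) z κ 1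
  rw [hzω] at h1
  rw [hc] at h2
  have h1r : (((powersetCard κ (Q.erase ω)).filter (fun V => -1 < ∑ x ∈ V, z x)).card : ℝ)
      ≤ KR5.pos (κ + 1) z Q := by exact_mod_cast h1
  have h2r : (((powersetCard κ (Q.erase ω)).filter (fun V => -1 < ∑ x ∈ V, z x)).card : ℝ)
      + (((powersetCard κ (Q.erase ω)).filter (fun V => ∑ x ∈ V, z x ≤ -1)).card : ℝ)
        = M.choose κ := by exact_mod_cast h2
  have hCκ : (0 : ℝ) < (M.choose κ : ℝ) := by exact_mod_cast Nat.choose_pos (by omega)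
  have hMpos : (0 : ℝ) < M := by linarith
  have h3 := dense hκ (Q.erase ω) z (by rw [hc]; omega)
    (fun x hx => hz1 x (mem_of_mem_erase hx)) (τ := 1 + 1 / y ω)
    (by have : 0 ≤ 1 / y ω := by positivity
        linarith) (by
      rw [hc, div_mul_eq_mul_div, div_le_iff₀ hMpos]
      have h4 : ((κ : ℝ) + 1) * (1 / y ω) ≤ 1 / 3 * N := by
        rw [mul_one_div, div_le_iff₀ h0]
        linarith
      rw [mul_add, mul_one]
      linarith) hes (by rw [hc]; linarith)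
  rw [hc] at h3
  have h4 : (KR5.pos (κ + 1) z (Q.erase ω) : ℝ) ≤ KR5.pos (κ + 1) z Q := by
    exact_mod_cast pos_mono (κ + 1) z (erase_subset ω Q)
  -- binomial coefficients
  have h5 := choose_rel' M κ (by omega)
  have hC2 : (0 : ℝ) ≤ (M.choose (κ + 1) : ℝ) := Nat.cast_nonneg _
  have h6 : (M.choose κ : ℝ) * ((M : ℝ) - κ) ≤ (1 / 50 * (M.choose (κ + 1) : ℝ)) * (50 * ((κ : ℝ) + 1)) := by
    rw [← h5]
    apply le_of_eq
    ring
  have h7 : (1 / 50 * (M.choose (κ + 1) : ℝ)) * (50 * ((κ : ℝ) + 1))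
      ≤ (2 / 11 * (M.choose κ : ℝ)) * (50 * ((κ : ℝ) + 1)) :=
    mul_le_mul_of_nonneg_right (by linarith) (by positivity)
  have h8 : (M.choose κ : ℝ) * ((M : ℝ) - κ) ≤ (M.choose κ : ℝ) * (100 / 11 * ((κ : ℝ) + 1)) := by
    linarith
  have h9 := le_of_mul_le_mul_left h8 hCκ
  linarith

end

end Pool.Agent.KR7
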