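import Pool.Agent.KR7.Big
import Pool.Agent.KR7.Small
import Pool.Agent.KR7.Pairs

/-!
# The key inequality with the constant `11`
-/

namespace Pool.Agent.KR7

open Finset AK Pool.Agent.KR5 Pool.Agent.KR6

section
variable {ι : Type*} [DecidableEq ι]

theorem part_far {κ N : ℕ} (hN1 : 11 * (κ + 1) ≤ N) (Q R : Finset ι) (y : ι → ℝ)
    (hRQ : R ⊆ Q) (hN : Q.card = N) (hs : -1 ≤ ∑ x ∈ Q, y x) (hR : ∀ x ∈ Q \ R, y x ≤ 0)
    (hR3 : ∑ x ∈ R, y x ^ 2 ≤ 111 / 10 * (((κ : ℝ) + 1) / N))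
    (hR4 : 5 * (κ + 1) * (Q \ R).card ≤ N) :
    27 / 50 * ((N - κ).choose (κ + 1) : ℝ)
        * (((powersetCard κ Q).filter (fun W => ∑ x ∈ W, y x ≤ -6)).card : ℝ)
      ≤ ((N - (κ + 1)).choose κ : ℝ) * KR5.pos (κ + 1) y Q := by
  unfold KR5.pos
  apply pair_count
  · intro W hW hA
    exact half hN1 Q R y hRQ hN hs hR hR3 hR4 W hW hA
  · intro S hS _
    rw [mem_powersetCard] at hS
    have hc : (Q \ S).card = N - (κ + 1) := by rw [card_sdiff_of_subset hS.1, hN, hS.2]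
    have h1 := card_filter_le (powersetCard κ (Q \ S)) (fun W => ∑ x ∈ W, y x ≤ -6)
    rw [card_powersetCard, hc] at h1
    exact_mod_cast h1

theorem part_near {κ N : ℕ} (hκ : 1 ≤ κ) (hN1 : 11 * (κ + 1) ≤ N) (Q : Finset ι) (y : ι → ℝ)
    (hN : Q.card = N) (hs : -1 < ∑ x ∈ Q, y x) {η ε : ℝ} (hη : 0 ≤ η)
    (hB : ∀ W ∈ powersetCard κ Q, -6 ≤ ∑ x ∈ W, y x →
      (((powersetCard (κ + 1) (Q \ W)).filter (fun S => 3 < ∑ x ∈ S, y x)).card : ℝ)
        ≤ ε * (((κ : ℝ) + 1) / N) * ((N - κ).choose (κ + 1) : ℝ))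
    (hC : ∀ S ∈ powersetCard (κ + 1) Q, ∑ x ∈ S, y x ≤ 3 →
      (((powersetCard κ (Q \ S)).filter (fun W => ∑ x ∈ W, y x ≤ -1)).card : ℝ)
        ≤ η * (((κ : ℝ) + 1) / N) * ((N - (κ + 1)).choose κ : ℝ)) :
    (5 / 6 - ε) * ((N - κ).choose (κ + 1) : ℝ) * (((powersetCard κ Q).filter
        (fun W => -6 < ∑ x ∈ W, y x ∧ ∑ x ∈ W, y x ≤ -1)).card : ℝ)
      ≤ η * ((N - (κ + 1)).choose κ : ℝ) * KR5.pos (κ + 1) y Q := by
  have hNr : 11 * ((κ : ℝ) + 1) ≤ N := by exact_mod_cast hN1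
  have hκ0 : (0 : ℝ) ≤ κ := Nat.cast_nonneg κ
  have hN0 : (0 : ℝ) < N := by linarith
  have hc0 : 0 < ((κ : ℝ) + 1) / N := by positivity
  have h := pair_count Q κ (κ + 1) (fun W => -6 < ∑ x ∈ W, y x ∧ ∑ x ∈ W, y x ≤ -1)
    (fun S => 0 < ∑ x ∈ S, y x ∧ ∑ x ∈ S, y x ≤ 3)
    (a := (5 / 6 - ε) * (((κ : ℝ) + 1) / N) * ((N - κ).choose (κ + 1) : ℝ))
    (b := η * (((κ : ℝ) + 1) / N) * ((N - (κ + 1)).choose κ : ℝ)) ?_ ?_
  · have h1 : (((powersetCard (κ + 1) Q).filter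
        (fun S => 0 < ∑ x ∈ S, y x ∧ ∑ x ∈ S, y x ≤ 3)).card : ℝ) ≤ KR5.pos (κ + 1) y Q := by
      unfold KR5.pos
      have : ((powersetCard (κ + 1) Q).filter
          (fun S => 0 < ∑ x ∈ S, y x ∧ ∑ x ∈ S, y x ≤ 3)).card
          ≤ ((powersetCard (κ + 1) Q).filter (fun S => 0 < ∑ x ∈ S, y x)).card := by
        apply card_le_card
        intro V hV
        rw [mem_filter] at hV ⊢
        exact ⟨hV.1, hV.2.1⟩
      exact_mod_cast this
    have h2 := h.trans (mul_le_mul_of_nonneg_left h1 (by positivity))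
    have h3 : (((κ : ℝ) + 1) / N) * ((5 / 6 - ε) * ((N - κ).choose (κ + 1) : ℝ)
        * (((powersetCard κ Q).filter
          (fun W => -6 < ∑ x ∈ W, y x ∧ ∑ x ∈ W, y x ≤ -1)).card : ℝ))
        ≤ (((κ : ℝ) + 1) / N) * (η * ((N - (κ + 1)).choose κ : ℝ) * KR5.pos (κ + 1) y Q) := by
      calc _ = (5 / 6 - ε) * (((κ : ℝ) + 1) / N) * ((N - κ).choose (κ + 1) : ℝ)
          * (((powersetCard κ Q).filter
            (fun W => -6 < ∑ x ∈ W, y x ∧ ∑ x ∈ W, y x ≤ -1)).card : ℝ) := by ring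
        _ ≤ _ := h2
        _ = _ := by ring
    exact le_of_mul_le_mul_left h3 hc0
  · intro W hW hA
    have h1 := near_a hκ hN1 Q y hN hs W hW hA.2
    have h2 := hB W hW hA.1.le
    unfold KR5.pos at h1
    have h3 : ((powersetCard (κ + 1) (Q \ W)).filter (fun S => 0 < ∑ x ∈ S, y x)).card
        ≤ ((powersetCard (κ + 1) (Q \ W)).filter
            (fun S => 0 < ∑ x ∈ S, y x ∧ ∑ x ∈ S, y x ≤ 3)).card
          + ((powersetCard (κ + 1) (Q \ W)).filter (fun S => 3 < ∑ x ∈ S, y x)).card := by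
      refine le_trans (card_le_card ?_) (card_union_le _ _)
      intro V hV
      rw [mem_filter] at hV
      rw [mem_union, mem_filter, mem_filter]
      rcases le_or_gt (∑ x ∈ V, y x) 3 with h | h
      · exact Or.inl ⟨hV.1, hV.2, h⟩
      · exact Or.inr ⟨hV.1, h⟩
    have h4 : (((powersetCard (κ + 1) (Q \ W)).filter (fun S => 0 < ∑ x ∈ S, y x)).card : ℝ)
        ≤ (((powersetCard (κ + 1) (Q \ W)).filter
            (fun S => 0 < ∑ x ∈ S, y x ∧ ∑ x ∈ S, y x ≤ 3)).card : ℝ)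
          + (((powersetCard (κ + 1) (Q \ W)).filter (fun S => 3 < ∑ x ∈ S, y x)).card : ℝ) := by
      exact_mod_cast h3
    linarith
  · intro S hS hB'
    have h1 := hC S hS hB'.2
    refine le_trans ?_ h1
    have : ((powersetCard κ (Q \ S)).filter
        (fun W => -6 < ∑ x ∈ W, y x ∧ ∑ x ∈ W, y x ≤ -1)).card
        ≤ ((powersetCard κ (Q \ S)).filter (fun W => ∑ x ∈ W, y x ≤ -1)).card := by
      apply card_le_card
      intro V hV
      rw [mem_filter] at hV ⊢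
      exact ⟨hV.1, hV.2.2⟩
    exact_mod_cast this

/-- disjoint pairs, the cut off part is rarely met -/
theorem near_hit {κ N : ℕ} (hN1 : 11 * (κ + 1) ≤ N) (Q R : Finset ι) (y : ι → ℝ)
    (hRQ : R ⊆ Q) (hN : Q.card = N) (hs : -1 ≤ ∑ x ∈ Q, y x) (hR : ∀ x ∈ Q \ R, y x ≤ 0)
    (hR3 : ∑ x ∈ R, y x ^ 2 ≤ 111 / 10 * (((κ : ℝ) + 1) / N))
    (hR4 : 5 * (κ + 1) * (Q \ R).card ≤ N)
    {s v L η : ℝ} (hs0 : 0 < s) (hNs : (s + 1) * ((κ : ℝ) + 1) ≤ N)
    (hv : (N : ℝ) ≤ v * ((κ : ℝ) + 1)) (hL : 0 < L)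
    (hL2 : 1 / s * 4 + L ≤ 1) (hη : 1 / s * (111 / 10) ≤ L ^ 2 * (η - (s + 1) / (5 * s) * v))
    (S : Finset ι) (hS : S ∈ powersetCard (κ + 1) Q) (hS1 : ∑ x ∈ S, y x ≤ 3) :
    (((powersetCard κ (Q \ S)).filter (fun W => ∑ x ∈ W, y x ≤ -1)).card : ℝ)
      ≤ η * (((κ : ℝ) + 1) / N) * ((N - (κ + 1)).choose κ : ℝ) := by
  have h1 := hit hN1 Q R hN hR4 hs0 hNs hv S hS
  have h2 := noise hN1 Q R y hRQ hN hs hR hR3 (θ := 1) hs0 hNs hL hL2 hη S hS hS1
  have h3 : ((powersetCard κ (Q \ S)).filter (fun W => ∑ x ∈ W, y x ≤ -1)).card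
      ≤ ((powersetCard κ (Q \ S)).filter (fun W => ¬ W ⊆ R)).card
        + ((powersetCard κ (Q \ S)).filter (fun W => ∑ x ∈ W, zt R y x ≤ -1)).card := by
    refine le_trans (card_le_card ?_) (card_union_le _ _)
    intro W hW
    rw [mem_filter] at hW
    rw [mem_union, mem_filter, mem_filter]
    by_cases h : W ⊆ R
    · right
      refine ⟨hW.1, ?_⟩
      have e : ∑ x ∈ W, zt R y x = ∑ x ∈ W, y x := by
        apply sum_congr rfl
        intro x hx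
        unfold zt
        rw [if_pos (h hx)]
      rw [e]
      exact hW.2
    · exact Or.inl ⟨hW.1, h⟩
  have h4 : (((powersetCard κ (Q \ S)).filter (fun W => ∑ x ∈ W, y x ≤ -1)).card : ℝ)
      ≤ (((powersetCard κ (Q \ S)).filter (fun W => ¬ W ⊆ R)).card : ℝ)
        + (((powersetCard κ (Q \ S)).filter (fun W => ∑ x ∈ W, zt R y x ≤ -1)).card : ℝ) := by
    exact_mod_cast h3
  refine h4.trans ((add_le_add h1 h2).trans (le_of_eq ?_))
  ring

/-- disjoint pairs, the cut off part has small weight -/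
theorem near_markov {κ N : ℕ} (hN1 : 11 * (κ + 1) ≤ N) (Q R : Finset ι) (y : ι → ℝ)
    (hRQ : R ⊆ Q) (hN : Q.card = N) (hs : -1 ≤ ∑ x ∈ Q, y x) (hR : ∀ x ∈ Q \ R, y x ≤ 0)
    (hR1 : -∑ x ∈ Q \ R, y x ≤ 63 / 50)
    (hR3 : ∑ x ∈ R, y x ^ 2 ≤ 111 / 10 * (((κ : ℝ) + 1) / N))
    (hN21 : 21 * ((κ : ℝ) + 1) ≤ N)
    (S : Finset ι) (hS : S ∈ powersetCard (κ + 1) Q) (hS1 : ∑ x ∈ S, y x ≤ 3) :
    (((powersetCard κ (Q \ S)).filter (fun W => ∑ x ∈ W, y x ≤ -1)).card : ℝ)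
      ≤ 34 / 5 * (((κ : ℝ) + 1) / N) * ((N - (κ + 1)).choose κ : ℝ) := by
  have h2 := noise hN1 Q R y hRQ hN hs hR hR3 (s := 20) (L := 2 / 5) (θ := 3 / 5)
    (η := 347 / 100) (by norm_num) (by linarith) (by norm_num) (by norm_num) (by norm_num) S hS hS1
  have hκ : (0 : ℝ) ≤ κ := Nat.cast_nonneg κ
  have hN0 : (0 : ℝ) < N := by linarith
  rw [mem_powersetCard] at hS
  have hc : (Q \ S).card = N - (κ + 1) := by rw [card_sdiff_of_subset hS.1, hN, hS.2]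
  have hcr : ((Q \ S).card : ℝ) = N - (κ + 1) := by
    rw [hc, Nat.cast_sub (by omega)]
    push_cast
    ring
  have hP0 : (0 : ℝ) < (Q \ S).card := by rw [hcr]; linarith
  have hm := mt_nonneg y hR
  have hm' : ∀ x ∈ Q \ S, 0 ≤ mt R y x := fun x hx => hm x (mem_sdiff.1 hx).1
  have hsz : ∀ V : Finset ι, ∑ x ∈ V, y x = ∑ x ∈ V, zt R y x - ∑ x ∈ V, mt R y x := by
    intro V
    rw [← sum_sub_distrib]
    exact sum_congr rfl (fun x _ => (zt_sub_mt R y x).symm)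
  obtain ⟨c, hcd⟩ : ∃ c : ℝ, c = ((κ : ℝ) + 1) / N := ⟨_, rfl⟩
  have hc0 : 0 < c := by rw [hcd]; positivity
  have hcN : c * N = (κ : ℝ) + 1 := by rw [hcd]; field_simp
  rw [← hcd] at h2 ⊢
  have hms : ∑ x ∈ Q \ S, mt R y x ≤ 63 / 50 := by
    refine le_trans ?_ hR1
    rw [← mt_sum]
    exact sum_le_sum_of_subset_of_nonneg sdiff_subset (fun x hx _ => hm x hx)
  have hms0 : 0 ≤ ∑ x ∈ Q \ S, mt R y x := sum_nonneg hm'
  have hratio2 : (κ : ℝ) / (Q \ S).card ≤ 21 / 20 * c := by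
    rw [div_le_iff₀ hP0, hcr]
    have h1 : 20 / 21 * (N : ℝ) ≤ N - (κ + 1) := by linarith
    have h2 : 21 / 20 * c * (20 / 21 * (N : ℝ)) ≤ 21 / 20 * c * (N - (κ + 1)) :=
      mul_le_mul_of_nonneg_left h1 (by positivity)
    linarith
  have hk4 : κ + 4 ≤ (Q \ S).card := by rw [hc]; omega
  obtain ⟨C, hC⟩ : ∃ C : ℝ, C = ((N - (κ + 1)).choose κ : ℝ) := ⟨_, rfl⟩
  have hC0 : 0 ≤ C := by rw [hC]; exact Nat.cast_nonneg _
  have h1 := markov (Q \ S) (mt R y) κ hk4 hm' (θ := 2 / 5)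
  rw [show ((Q \ S).card.choose κ : ℝ) = C by rw [hc, hC]] at h1
  have h1' : C * ((κ : ℝ) / (Q \ S).card * ∑ x ∈ Q \ S, mt R y x)
      ≤ C * (21 / 20 * c * (63 / 50)) :=
    mul_le_mul_of_nonneg_left (mul_le_mul hratio2 hms hms0 (by positivity)) hC0
  have h3 : (((powersetCard κ (Q \ S)).filter (fun W => ∑ x ∈ W, y x ≤ -1)).card : ℝ)
      ≤ (((powersetCard κ (Q \ S)).filter (fun W => 2 / 5 ≤ ∑ x ∈ W, mt R y x)).card : ℝ)
        + (((powersetCard κ (Q \ S)).filter (fun W => ∑ x ∈ W, zt R y x ≤ -(3 / 5))).card : ℝ) := by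
    have h4 : (powersetCard κ (Q \ S)).filter (fun W => ∑ x ∈ W, y x ≤ -1)
        ⊆ (powersetCard κ (Q \ S)).filter (fun W => 2 / 5 ≤ ∑ x ∈ W, mt R y x)
          ∪ (powersetCard κ (Q \ S)).filter (fun W => ∑ x ∈ W, zt R y x ≤ -(3 / 5)) := by
      intro W hW
      rw [mem_filter] at hW
      rw [mem_union, mem_filter, mem_filter]
      rcases le_or_gt (2 / 5) (∑ x ∈ W, mt R y x) with h | h
      · exact Or.inl ⟨hW.1, h⟩
      · right
        refine ⟨hW.1, ?_⟩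
        have := hsz W
        linarith [hW.2]
    have h5 := (card_le_card h4).trans (card_union_le _ _)
    exact_mod_cast h5
  have h4 : 0 ≤ c * C := by positivity
  rw [← hC] at h2 ⊢
  linarith

/-- few positive sets -/
theorem key_few {κ N : ℕ} (hκ : 1 ≤ κ) (hN1 : 11 * (κ + 1) ≤ N) (Q : Finset ι) (y : ι → ℝ)
    (hy : ∀ i ∈ Q, y i ≤ 1) (hN : Q.card = N) (hs : -1 < ∑ x ∈ Q, y x)
    (hb : (KR5.pos (κ + 1) y Q : ℝ) ≤ 2 / 11 * ((N - 1).choose κ : ℝ)) :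
    (low κ y Q : ℝ) * ((N - κ).choose (κ + 1) : ℝ)
      ≤ 11 * (KR5.pos (κ + 1) y Q * ((N - (κ + 1)).choose κ : ℝ)) := by
  have hNr : 11 * ((κ : ℝ) + 1) ≤ N := by exact_mod_cast hN1
  have hκ0 : (0 : ℝ) ≤ κ := Nat.cast_nonneg κ
  have hN0 : (0 : ℝ) < N := by linarith
  have hsm := KR7.all_small hκ hN1 Q y hy hN hs.le hb
  have hb2 : (KR5.pos (κ + 1) y Q : ℝ) ≤ 1 / 60 * (N.choose (κ + 1) : ℝ) := by
    have h2 := choose_rel N κ (by omega)
    have hC : (0 : ℝ) ≤ ((N - 1).choose κ : ℝ) := Nat.cast_nonneg _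
    have h3 : ((N - 1).choose κ : ℝ) * (11 * ((κ : ℝ) + 1)) ≤ ((N - 1).choose κ : ℝ) * N :=
      mul_le_mul_of_nonneg_left hNr hC
    rw [h2] at h3
    have h4 : (11 * ((N - 1).choose κ : ℝ)) * ((κ : ℝ) + 1)
        ≤ (N.choose (κ + 1) : ℝ) * ((κ : ℝ) + 1) := by linarith
    have h5 := le_of_mul_le_mul_right h4 (by positivity)
    linarith
  obtain ⟨R, hRQ, hR, hR1, hR2, hR3, hR4⟩ := KR7.shape hκ hN1 Q y hN hs.le
    (fun x hx => (hsm x hx).le) hb2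
  have hfar := part_far hN1 Q R y hRQ hN hs.le hR hR3 hR4
  have hC : (0 : ℝ) ≤ ((N - κ).choose (κ + 1) : ℝ) := Nat.cast_nonneg _
  obtain ⟨B, hB⟩ : ∃ B : ℝ, B = (((powersetCard κ Q).filter
    (fun W => -6 < ∑ x ∈ W, y x ∧ ∑ x ∈ W, y x ≤ -1)).card : ℝ) := ⟨_, rfl⟩
  have hX : 0 ≤ (KR5.pos (κ + 1) y Q : ℝ) * ((N - (κ + 1)).choose κ : ℝ) := by positivity
  -- the near part
  have hgen : ∀ η ε : ℝ, 0 ≤ η → ε < 5 / 6 → η ≤ 247 / 27 * (5 / 6 - ε) →
      (5 / 6 - ε) * ((N - κ).choose (κ + 1) : ℝ) * B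
        ≤ η * ((N - (κ + 1)).choose κ : ℝ) * KR5.pos (κ + 1) y Q →
      B * ((N - κ).choose (κ + 1) : ℝ)
        ≤ 247 / 27 * (KR5.pos (κ + 1) y Q * ((N - (κ + 1)).choose κ : ℝ)) := by
    intro η ε _ hε h h1
    have h2 : 0 < 5 / 6 - ε := by linarith
    have h3 : η * ((KR5.pos (κ + 1) y Q : ℝ) * ((N - (κ + 1)).choose κ : ℝ))
        ≤ 247 / 27 * (5 / 6 - ε) * ((KR5.pos (κ + 1) y Q : ℝ) * ((N - (κ + 1)).choose κ : ℝ)) :=
      mul_le_mul_of_nonneg_right h hX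
    have h4 : (5 / 6 - ε) * (B * ((N - κ).choose (κ + 1) : ℝ))
        ≤ (5 / 6 - ε) * (247 / 27
          * (KR5.pos (κ + 1) y Q * ((N - (κ + 1)).choose κ : ℝ))) := by linarith
    exact le_of_mul_le_mul_left h4 h2
  have hnear : B * ((N - κ).choose (κ + 1) : ℝ)
      ≤ 247 / 27 * (KR5.pos (κ + 1) y Q * ((N - (κ + 1)).choose κ : ℝ)) := by
    rcases le_or_gt (21 * ((κ : ℝ) + 1)) N with h21 | h21
    · refine hgen (34 / 5) (77 / 1000) (by norm_num) (by norm_num) (by norm_num) ?_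
      rw [hB]
      exact part_near hκ hN1 Q y hN hs (by norm_num)
        (fun W hW h => near_b hN1 Q R y hRQ hN hR hR2 hR3 (s := 20) (L := 2687 / 1000)
          (by norm_num) (by linarith) (by norm_num) (by norm_num) (by norm_num) W hW h)
        (fun S hS h => near_markov hN1 Q R y hRQ hN hs.le hR hR1 hR3 h21 S hS h)
    rcases le_or_gt (15 * ((κ : ℝ) + 1)) N with h15 | h15
    · refine hgen (1211 / 200) (61 / 500) (by norm_num) (by norm_num) (by norm_num) ?_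
      rw [hB]
      exact part_near hκ hN1 Q y hN hs (by norm_num)
        (fun W hW h => near_b hN1 Q R y hRQ hN hR hR2 hR3 (s := 14) (L := 51 / 20)
          (by norm_num) (by linarith) (by norm_num) (by norm_num) (by norm_num) W hW h)
        (fun S hS h => near_hit hN1 Q R y hRQ hN hs.le hR hR3 hR4 (s := 14) (v := 21)
          (L := 5 / 7) (by norm_num) (by linarith) h21.le (by norm_num) (by norm_num)
          (by norm_num) S hS h)
    rcases le_or_gt (12 * ((κ : ℝ) + 1)) N with h12 | h12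
    · refine hgen (1153 / 200) (171 / 1000) (by norm_num) (by norm_num) (by norm_num) ?_
      rw [hB]
      exact part_near hκ hN1 Q y hN hs (by norm_num)
        (fun W hW h => near_b hN1 Q R y hRQ hN hR hR2 hR3 (s := 11) (L := 243 / 100)
          (by norm_num) (by linarith) (by norm_num) (by norm_num) (by norm_num) W hW h)
        (fun S hS h => near_hit hN1 Q R y hRQ hN hs.le hR hR3 hR4 (s := 11) (v := 15)
          (L := 7 / 11) (by norm_num) (by linarith) h15.le (by norm_num) (by norm_num)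
          (by norm_num) S hS h)
    · refine hgen (1431 / 250) (197 / 1000) (by norm_num) (by norm_num) (by norm_num) ?_
      rw [hB]
      exact part_near hκ hN1 Q y hN hs (by norm_num)
        (fun W hW h => near_b hN1 Q R y hRQ hN hR hR2 hR3 (s := 10) (L := 1187 / 500)
          (by norm_num) (by linarith) (by norm_num) (by norm_num) (by norm_num) W hW h)
        (fun S hS h => near_hit hN1 Q R y hRQ hN hs.le hR hR3 hR4 (s := 10) (v := 12)
          (L := 3 / 5) (by norm_num) (by linarith) h12.le (by norm_num) (by norm_num)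
          (by norm_num) S hS h)
  have hsplit : (low κ y Q : ℝ)
      ≤ (((powersetCard κ Q).filter (fun W => ∑ x ∈ W, y x ≤ -6)).card : ℝ) + B := by
    rw [hB]
    unfold low
    have : ((powersetCard κ Q).filter (fun W => ∑ x ∈ W, y x ≤ -1)).card
        ≤ ((powersetCard κ Q).filter (fun W => ∑ x ∈ W, y x ≤ -6)).card
          + ((powersetCard κ Q).filter
            (fun W => -6 < ∑ x ∈ W, y x ∧ ∑ x ∈ W, y x ≤ -1)).card := by
      refine le_trans (card_le_card ?_) (card_union_le _ _)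
      intro V hV
      rw [mem_filter] at hV
      rw [mem_union, mem_filter, mem_filter]
      rcases le_or_gt (∑ x ∈ V, y x) (-6) with h | h
      · exact Or.inl ⟨hV.1, h⟩
      · exact Or.inr ⟨hV.1, h, hV.2⟩
    exact_mod_cast this
  obtain ⟨A, hA⟩ : ∃ A : ℝ, A = (((powersetCard κ Q).filter
    (fun W => ∑ x ∈ W, y x ≤ -6)).card : ℝ) := ⟨_, rfl⟩
  rw [← hA] at hfar hsplit
  have h1 : (low κ y Q : ℝ) * ((N - κ).choose (κ + 1) : ℝ)
      ≤ (A + B) * ((N - κ).choose (κ + 1) : ℝ) := mul_le_mul_of_nonneg_right hsplit hC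
  linarith

/-- the key inequality -/
theorem key_lin {κ N : ℕ} (hN1 : 11 * (κ + 1) ≤ N) (Q : Finset ι) (y : ι → ℝ)
    (hy : ∀ i ∈ Q, y i ≤ 1) (hN : Q.card = N) (hs : -1 < ∑ x ∈ Q, y x) :
    (low κ y Q : ℝ) * (N.choose (κ + 1) : ℝ)
      ≤ 11 * (KR5.pos (κ + 1) y Q * (N.choose κ : ℝ)) := by
  have hNr : 11 * ((κ : ℝ) + 1) ≤ N := by exact_mod_cast hN1
  have hκ : (0 : ℝ) ≤ κ := Nat.cast_nonneg κ
  have hN0 : (0 : ℝ) < N := by linarith
  have hC1 : (0 : ℝ) < (N.choose κ : ℝ) := by exact_mod_cast Nat.choose_pos (by omega)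
  have hC2 : (0 : ℝ) < (N.choose (κ + 1) : ℝ) := by exact_mod_cast Nat.choose_pos (by omega)
  have hp0 : (0 : ℝ) ≤ KR5.pos (κ + 1) y Q := Nat.cast_nonneg _
  rcases Nat.eq_zero_or_pos (low κ y Q) with hz | hL
  · rw [hz, Nat.cast_zero, zero_mul]
    positivity
  rcases Nat.eq_zero_or_pos κ with h0 | hκ1
  · exfalso
    subst h0
    unfold low at hL
    obtain ⟨W, hW⟩ := card_pos.1 hL
    rw [mem_filter, powersetCard_zero, mem_singleton] at hW
    have := hW.2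
    rw [hW.1, sum_empty] at this
    linarith
  -- the fractions
  obtain ⟨a, ha⟩ : ∃ a : ℝ, a = (low κ y Q : ℝ) / (N.choose κ : ℝ) := ⟨_, rfl⟩
  obtain ⟨b, hb⟩ : ∃ b : ℝ, b = (KR5.pos (κ + 1) y Q : ℝ) / (N.choose (κ + 1) : ℝ) := ⟨_, rfl⟩
  have ha' : (low κ y Q : ℝ) = a * (N.choose κ : ℝ) := by rw [ha]; field_simp
  have hb' : (KR5.pos (κ + 1) y Q : ℝ) = b * (N.choose (κ + 1) : ℝ) := by rw [hb]; field_simp
  have ha1 : a ≤ 1 := by
    rw [ha, div_le_one hC1]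
    have h1 := card_filter_le (powersetCard κ Q) (fun W => ∑ x ∈ W, y x ≤ -1)
    rw [card_powersetCard, hN] at h1
    unfold low
    exact_mod_cast h1
  have hfin : a ≤ 11 * b → (low κ y Q : ℝ) * (N.choose (κ + 1) : ℝ)
      ≤ 11 * (KR5.pos (κ + 1) y Q * (N.choose κ : ℝ)) := by
    intro h
    rw [ha', hb']
    have h1 : a * ((N.choose κ : ℝ) * (N.choose (κ + 1) : ℝ))
        ≤ 11 * b * ((N.choose κ : ℝ) * (N.choose (κ + 1) : ℝ)) :=
      mul_le_mul_of_nonneg_right h (by positivity)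
    linarith
  rcases le_or_gt (2 * (((κ : ℝ) + 1) / N)) a with hbig | hsmall
  · exact hfin (KR7.case_big hκ1 hN1 Q y hy hN hs.le ha' ha1 hb' hbig)
  rcases le_or_gt a (11 * b) with h | hab
  · exact hfin h
  -- few positive sets
  have hfew : (KR5.pos (κ + 1) y Q : ℝ) ≤ 2 / 11 * ((N - 1).choose κ : ℝ) := by
    have h2 := choose_rel N κ (by omega)
    have hk0 : (0 : ℝ) < (κ : ℝ) + 1 := by positivity
    have h3 : b * N ≤ 2 / 11 * ((κ : ℝ) + 1) := by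
      have h4 : 11 * b < 2 * (((κ : ℝ) + 1) / N) := by linarith
      rw [mul_div_assoc', lt_div_iff₀ hN0] at h4
      linarith
    have h5 : (KR5.pos (κ + 1) y Q : ℝ) * N ≤ 2 / 11 * ((N - 1).choose κ : ℝ) * N := by
      rw [hb']
      calc b * (N.choose (κ + 1) : ℝ) * N = (b * N) * (N.choose (κ + 1) : ℝ) := by ring
        _ ≤ (2 / 11 * ((κ : ℝ) + 1)) * (N.choose (κ + 1) : ℝ) :=
            mul_le_mul_of_nonneg_right h3 hC2.le
        _ = 2 / 11 * ((N.choose (κ + 1) : ℝ) * ((κ : ℝ) + 1)) := by ring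
        _ = _ := by rw [← h2]; ring
    exact le_of_mul_le_mul_right h5 hN0
  have h1 := key_few hκ1 hN1 Q y hy hN hs hfew
  have h2 : (N.choose κ : ℝ) * ((N - κ).choose (κ + 1) : ℝ)
      = (N.choose (κ + 1) : ℝ) * ((N - (κ + 1)).choose κ : ℝ) := by
    have e1 := Nat.choose_mul (n := N) (k := κ + (κ + 1)) (s := κ) (by omega)
    have e2 := Nat.choose_mul (n := N) (k := κ + (κ + 1)) (s := κ + 1) (by omega)
    rw [show κ + (κ + 1) - κ = κ + 1 by omega] at e1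
    rw [show κ + (κ + 1) - (κ + 1) = κ by omega] at e2
    have e3 : (κ + (κ + 1)).choose κ = (κ + (κ + 1)).choose (κ + 1) := by
      have := Nat.choose_symm_half κ
      rw [show κ + (κ + 1) = 2 * κ + 1 by ring]
      exact this.symm
    rw [e3] at e1
    have e4 := e1.symm.trans e2
    exact_mod_cast e4
  have hC3 : (0 : ℝ) < ((N - (κ + 1)).choose κ : ℝ) := by
    exact_mod_cast Nat.choose_pos (by omega)
  have h3 : ((low κ y Q : ℝ) * (N.choose (κ + 1) : ℝ)) * ((N - (κ + 1)).choose κ : ℝ)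
      ≤ (11 * (KR5.pos (κ + 1) y Q * (N.choose κ : ℝ))) * ((N - (κ + 1)).choose κ : ℝ) := by
    calc ((low κ y Q : ℝ) * (N.choose (κ + 1) : ℝ)) * ((N - (κ + 1)).choose κ : ℝ)
        = ((low κ y Q : ℝ) * ((N - κ).choose (κ + 1) : ℝ)) * (N.choose κ : ℝ) := by
          rw [mul_assoc, ← h2]
          ring
      _ ≤ (11 * (KR5.pos (κ + 1) y Q * ((N - (κ + 1)).choose κ : ℝ))) * (N.choose κ : ℝ) :=
          mul_le_mul_of_nonneg_right h1 hC1.le
      _ = _ := by ring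
  exact le_of_mul_le_mul_right h3 hC3

end

theorem key11 : Key 11 := by
  intro n κ N hN Q y hy hQ hs
  have := key_lin hN Q y hy hQ hs
  push_cast
  exact this

end Pool.Agent.KR7
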