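import Pool.Agent.KR7.Third
import Pool.Agent.KR6.Struct

/-!
# The third and the fourth moment together
-/

namespace Pool.Agent.KR7

open Finset AK Pool.Agent.KR5 Pool.Agent.KR6

theorem coef_23 (j M : ℝ) (hM : 4 < M) : r2 j M - r3 j M
    = j * (j - 1) * (M - j) / (M * (M - 1) * (M - 2)) := by
  unfold r2 r3
  have h1 : M ≠ 0 := by linarith
  have h2 : M - 1 ≠ 0 := by linarith
  have h3 : M - 2 ≠ 0 := by linarith
  field_simp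
  ring

theorem coef_34 (j M : ℝ) (hM : 4 < M) : 4 * r2 j M - 10 * r3 j M + 6 * r4 j M
    = 2 * (j * (j - 1) * (M - j) * (2 * M - 3 * j)) / (M * (M - 1) * (M - 2) * (M - 3)) := by
  unfold r2 r3 r4
  have h1 : M ≠ 0 := by linarith
  have h2 : M - 1 ≠ 0 := by linarith
  have h3 : M - 2 ≠ 0 := by linarith
  have h4 : M - 3 ≠ 0 := by linarith
  field_simp
  ring

section
variable {ι : Type*} [DecidableEq ι]

/-- the third moment -/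
noncomputable def tr (z : ι → ℝ) (j : ℕ) (P : Finset ι) : ℝ :=
  m3 (r1 j P.card) (r2 j P.card) (r3 j P.card) 0 (∑ x ∈ P, z x ^ 2) (∑ x ∈ P, z x ^ 3)

theorem sv_mean3 (z : ι → ℝ) (j : ℕ) (P : Finset ι) (hP : j + 4 ≤ P.card)
    (hz : ∑ x ∈ P, z x = 0) :
    Mean3 (fun F => sv z j P F) (vr z j P) (tr z j P) (fr z j P) := by
  refine ⟨fun F G h => sv_mono z j P F G h, ?_⟩
  intro c0 c1 c2 c3 c4
  have hm := moments z j P hP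
  rw [hz] at hm
  show sv z j P (fun s => c0 + (c1 * s + (c2 * s ^ 2 + (c3 * s ^ 3 + c4 * s ^ 4)))) = _
  rw [sv_add z j P (fun _ => c0) (fun s => c1 * s + (c2 * s ^ 2 + (c3 * s ^ 3 + c4 * s ^ 4))),
    sv_add z j P (fun s => c1 * s) (fun s => c2 * s ^ 2 + (c3 * s ^ 3 + c4 * s ^ 4)),
    sv_add z j P (fun s => c2 * s ^ 2) (fun s => c3 * s ^ 3 + c4 * s ^ 4),
    sv_add z j P (fun s => c3 * s ^ 3) (fun s => c4 * s ^ 4), sv_mul z j P (fun s => s),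
    sv_mul z j P (fun s => s ^ 2), sv_mul z j P (fun s => s ^ 3), sv_mul z j P (fun s => s ^ 4),
    sv_const z j P _ (by omega), hm.1, hm.2.1, hm.2.2.1, hm.2.2.2]
  unfold vr tr fr m1 m2
  ring

/-- values between `-b` and `a` -/
theorem tr_fr (z : ι → ℝ) (j : ℕ) (P : Finset ι) (hj : 1 ≤ j) (hP : 8 * j ≤ P.card) {a b : ℝ}
    (ha : 0 ≤ a) (hab : a ≤ b) (h1 : ∀ x ∈ P, -b ≤ z x) (h2 : ∀ x ∈ P, z x ≤ a) :
    fr z j P + (b - a) * tr z j P ≤ 3 * vr z j P ^ 2 + b * a * vr z j P := by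
  have hjr : (1 : ℝ) ≤ j := by exact_mod_cast hj
  have hPr : 8 * (j : ℝ) ≤ P.card := by exact_mod_cast hP
  obtain ⟨M, hM⟩ : ∃ M : ℝ, M = P.card := ⟨_, rfl⟩
  rw [← hM] at hPr
  have hM4 : 4 < M := by linarith
  have hW := coef_le8 hjr hM4 hPr
  have hp3 : ∑ x ∈ P, z x ^ 3 ≤ a * ∑ x ∈ P, z x ^ 2 := by
    rw [mul_sum]
    apply sum_le_sum
    intro x hx
    have h3 := mul_le_mul_of_nonneg_right (h2 x hx) (sq_nonneg (z x))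
    calc z x ^ 3 = z x * z x ^ 2 := by ring
      _ ≤ _ := h3
  have hp4 : ∑ x ∈ P, z x ^ 4 ≤ b * a * ∑ x ∈ P, z x ^ 2 - (b - a) * ∑ x ∈ P, z x ^ 3 := by
    rw [mul_sum, mul_sum, ← sum_sub_distrib]
    apply sum_le_sum
    intro x hx
    have h3 : 0 ≤ (z x + b) * (a - z x) :=
      mul_nonneg (by linarith [h1 x hx]) (by linarith [h2 x hx])
    have h4 : 0 ≤ z x ^ 2 * ((z x + b) * (a - z x)) := mul_nonneg (sq_nonneg _) h3
    nlinarith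
  have hp2 : 0 ≤ ∑ x ∈ P, z x ^ 2 := sum_nonneg (fun x _ => by positivity)
  unfold fr vr tr
  rw [← hM]
  obtain ⟨p2, h2⟩ : ∃ p2, p2 = ∑ x ∈ P, z x ^ 2 := ⟨_, rfl⟩
  obtain ⟨p4, h4⟩ : ∃ p4, p4 = ∑ x ∈ P, z x ^ 4 := ⟨_, rfl⟩
  obtain ⟨p3, h3⟩ : ∃ p3, p3 = ∑ x ∈ P, z x ^ 3 := ⟨_, rfl⟩
  rw [← h2, ← h3, ← h4] at hp4
  rw [← h2, ← h3] at hp3
  rw [← h2] at hp2
  rw [← h2, ← h3, ← h4]
  -- coefficients
  have hMj : 0 < M - j := by linarith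
  have hD3 : 0 < M * (M - 1) * (M - 2) := by
    apply mul_pos (mul_pos (by linarith) (by linarith)) (by linarith)
  have hD4 : 0 < M * (M - 1) * (M - 2) * (M - 3) := mul_pos hD3 (by linarith)
  have c23 : 0 ≤ r2 (j : ℝ) M - r3 (j : ℝ) M := by
    rw [coef_23 _ _ hM4]
    apply div_nonneg _ hD3.le
    exact mul_nonneg (mul_nonneg (by linarith) (by linarith)) hMj.le
  have c34 : 0 ≤ 4 * r2 (j : ℝ) M - 10 * r3 (j : ℝ) M + 6 * r4 (j : ℝ) M := by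
    rw [coef_34 _ _ hM4]
    apply div_nonneg _ hD4.le
    have : 0 ≤ 2 * M - 3 * (j : ℝ) := by linarith
    have h5 : 0 ≤ (j : ℝ) * (j - 1) * (M - j) :=
      mul_nonneg (mul_nonneg (by linarith) (by linarith)) hMj.le
    exact mul_nonneg (by norm_num) (mul_nonneg h5 this)
  have c4 : 0 ≤ r1 (j : ℝ) M - 7 * r2 (j : ℝ) M + 12 * r3 (j : ℝ) M - 6 * r4 (j : ℝ) M := by
    have e : r1 (j : ℝ) M - 7 * r2 (j : ℝ) M + 12 * r3 (j : ℝ) M - 6 * r4 (j : ℝ) M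
        = (r1 (j : ℝ) M - r2 (j : ℝ) M)
          - 6 * (r2 (j : ℝ) M - 2 * r3 (j : ℝ) M + r4 (j : ℝ) M) := by ring
    rw [e, coef_V _ _ hM4, coef_W _ _ hM4, sub_nonneg, mul_div_assoc',
      div_le_div_iff₀ hD4 (mul_pos (by linarith) (by linarith))]
    have h5 : 6 * ((j - 1) * (M - j - 1)) ≤ (M - 2) * (M - 3) := by nlinarith
    have h6 : 0 ≤ (j : ℝ) * (M - j) * (M * (M - 1)) := by
      apply mul_nonneg (mul_nonneg (by linarith) hMj.le)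
      exact mul_nonneg (by linarith) (by linarith)
    calc 6 * ((j : ℝ) * (j - 1) * (M - j) * (M - j - 1)) * (M * (M - 1))
        = ((j : ℝ) * (M - j) * (M * (M - 1))) * (6 * ((j - 1) * (M - j - 1))) := by ring
      _ ≤ ((j : ℝ) * (M - j) * (M * (M - 1))) * ((M - 2) * (M - 3)) :=
          mul_le_mul_of_nonneg_left h5 h6
      _ = _ := by ring
  obtain ⟨q1, hq1⟩ : ∃ q1, q1 = r1 (j : ℝ) M := ⟨_, rfl⟩
  obtain ⟨q2, hq2⟩ : ∃ q2, q2 = r2 (j : ℝ) M := ⟨_, rfl⟩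
  obtain ⟨q3, hq3⟩ : ∃ q3, q3 = r3 (j : ℝ) M := ⟨_, rfl⟩
  obtain ⟨q4, hq4⟩ : ∃ q4, q4 = r4 (j : ℝ) M := ⟨_, rfl⟩
  rw [← hq1, ← hq2, ← hq3, ← hq4] at hW c4
  rw [← hq2, ← hq3, ← hq4] at c34
  rw [← hq2, ← hq3] at c23
  rw [← hq1, ← hq2, ← hq3, ← hq4]
  unfold m4 m3
  have e : q1 * p4 + q2 * (4 * (0 * p3 - p4) + 3 * (p2 ^ 2 - p4))
      + 6 * q3 * (0 ^ 2 * p2 - 2 * 0 * p3 - p2 ^ 2 + 2 * p4)
      + q4 * (0 ^ 4 - 6 * 0 ^ 2 * p2 + 8 * 0 * p3 + 3 * p2 ^ 2 - 6 * p4)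
      + (b - a) * (q1 * p3 + 3 * q2 * (0 * p2 - p3) + q3 * (0 ^ 3 - 3 * 0 * p2 + 2 * p3))
      = (q1 - 7 * q2 + 12 * q3 - 6 * q4) * p4
        + (b - a) * ((q1 - 3 * q2 + 2 * q3) * p3)
        + 3 * ((q2 - 2 * q3 + q4) * p2 ^ 2) := by ring
  rw [e]
  have h5 : (q1 - 7 * q2 + 12 * q3 - 6 * q4) * p4
      ≤ (q1 - 7 * q2 + 12 * q3 - 6 * q4) * (b * a * p2 - (b - a) * p3) :=
    mul_le_mul_of_nonneg_left hp4 c4
  have h6 : (q2 - 2 * q3 + q4) * p2 ^ 2 ≤ (q1 - q2) ^ 2 * p2 ^ 2 :=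
    mul_le_mul_of_nonneg_right hW (sq_nonneg _)
  -- `w3 - w4`
  have h7 : (b - a) * ((4 * q2 - 10 * q3 + 6 * q4) * p3)
      ≤ (b - a) * ((4 * q2 - 10 * q3 + 6 * q4) * (a * p2)) :=
    mul_le_mul_of_nonneg_left (mul_le_mul_of_nonneg_left hp3 c34) (by linarith)
  have h8 : 0 ≤ b * a * ((q2 - q3) * p2) := by
    apply mul_nonneg (mul_nonneg (by linarith) ha) (mul_nonneg c23 hp2)
  have h9 : 0 ≤ a * a * ((4 * q2 - 10 * q3 + 6 * q4) * p2) := by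
    apply mul_nonneg (mul_nonneg ha ha) (mul_nonneg c34 hp2)
  nlinarith

end

end Pool.Agent.KR7
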