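import Pool.Agent.KR7.Trim

/-!
# Few positive sets and small values: the structure
-/

namespace Pool.Agent.KR7

open Finset AK Pool.Agent.KR5 Pool.Agent.KR6

/-- the numerical part of the refined bound -/
theorem ref_num {e m V : ℝ} (he : 0 < e) (hm1 : e / 2 ≤ m) (hm2 : m ≤ e)
    (hV : V ≤ 121 / 10 * e ^ 2)
    (h : (3 * (6 * e) ^ 2 - m * (2 * (6 * e) - m)) * V - (6 * e) ^ 2 * m * (2 * (6 * e) - m)
      - 3 * V ^ 2 - (15 / 4 * e) ^ 2 * V ≤ 1 / 48 * ((5 * (6 * e) - 3 * m) ^ 4 / 128)) :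
    V ≤ 17 / 2 * e ^ 2 := by
  by_contra hcon
  push Not at hcon
  obtain ⟨x, hx⟩ : ∃ x, x = m / e := ⟨_, rfl⟩
  obtain ⟨v, hv⟩ : ∃ v, v = V / e ^ 2 := ⟨_, rfl⟩
  have hmx : m = x * e := by rw [hx]; field_simp
  have hVv : V = v * e ^ 2 := by rw [hv]; field_simp
  have he2 : 0 < e ^ 2 := by positivity
  have he4 : 0 < e ^ 4 := by positivity
  have hx1 : 1 / 2 ≤ x := by
    rw [hx, le_div_iff₀ he]
    linarith
  have hx2 : x ≤ 1 := by
    rw [hx, div_le_one he]
    exact hm2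
  have hv1 : 17 / 2 < v := by
    rw [hv, lt_div_iff₀ he2]
    exact hcon
  have hv2 : v ≤ 121 / 10 := by
    rw [hv, div_le_iff₀ he2]
    exact hV
  rw [hmx, hVv] at h
  have h1 : e ^ 4 * ((108 - x * (12 - x)) * v - 36 * x * (12 - x) - 3 * v ^ 2 - 225 / 16 * v)
      ≤ e ^ 4 * (1 / 48 * ((30 - 3 * x) ^ 4 / 128)) := by
    calc _ = (3 * (6 * e) ^ 2 - x * e * (2 * (6 * e) - x * e)) * (v * e ^ 2)
        - (6 * e) ^ 2 * (x * e) * (2 * (6 * e) - x * e)
        - 3 * (v * e ^ 2) ^ 2 - (15 / 4 * e) ^ 2 * (v * e ^ 2) := by ring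
      _ ≤ _ := h
      _ = _ := by ring
  have h2 := le_of_mul_le_mul_left h1 he4
  -- the fourth power
  have h3 : (10 - x) ^ 2 ≤ 37 / 2 * (10 - x) - 171 / 2 := by nlinarith
  have h4 : (10 - x) ^ 4 ≤ (37 / 2 * (10 - x) - 171 / 2) ^ 2 := by
    have : ((10 - x) ^ 2) ^ 2 ≤ (37 / 2 * (10 - x) - 171 / 2) ^ 2 :=
      pow_le_pow_left₀ (sq_nonneg _) h3 2
    calc (10 - x) ^ 4 = ((10 - x) ^ 2) ^ 2 := by ring
      _ ≤ _ := this
  have h5 : (37 / 2 * (10 - x) - 171 / 2) ^ 2 ≤ 1369 / 4 * (37 / 2 * (10 - x) - 171 / 2)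
      - 6327 / 2 * (10 - x) + 29241 / 4 := by nlinarith
  have h6 : (30 - 3 * x) ^ 4 = 81 * (10 - x) ^ 4 := by ring
  rw [h6] at h2
  have h7 : 0 ≤ (v - 17 / 2) * (121 / 10 - v) := mul_nonneg (by linarith) (by linarith)
  have h8 : 0 ≤ (v - 17 / 2) * (32 - 12 * x + x ^ 2) := by
    apply mul_nonneg (by linarith)
    nlinarith
  nlinarith

section
variable {ι : Type*} [DecidableEq ι]

theorem shape {κ N : ℕ} (hκ : 1 ≤ κ) (hN1 : 11 * (κ + 1) ≤ N) (Q : Finset ι) (y : ι → ℝ)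
    (hN : Q.card = N) (hs : -1 ≤ ∑ x ∈ Q, y x)
    (hy : ∀ x ∈ Q, y x ≤ 3 * (((κ : ℝ) + 1) / N))
    (hb : (KR5.pos (κ + 1) y Q : ℝ) ≤ 1 / 60 * (N.choose (κ + 1) : ℝ)) :
    ∃ R ⊆ Q, (∀ x ∈ Q \ R, y x ≤ 0) ∧ -∑ x ∈ Q \ R, y x ≤ 63 / 50 ∧
      ∑ x ∈ R, y x ≤ 13 / 50 ∧ ∑ x ∈ R, y x ^ 2 ≤ 111 / 10 * (((κ : ℝ) + 1) / N) ∧
      5 * (κ + 1) * (Q \ R).card ≤ N := by
  subst hN
  have hk2 : 2 ≤ κ + 1 := by omega
  have hM10 : 10 * (κ + 1) ≤ Q.card := by omega
  have hMr : 11 * ((κ : ℝ) + 1) ≤ Q.card := by exact_mod_cast hN1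
  have hκr : (1 : ℝ) ≤ κ := by exact_mod_cast hκ
  have hM0 : (0 : ℝ) < Q.card := by linarith
  obtain ⟨c, hc⟩ : ∃ c : ℝ, c = ((κ : ℝ) + 1) / Q.card := ⟨_, rfl⟩
  have hc0 : 0 < c := by rw [hc]; positivity
  have hcM : c * Q.card = (κ : ℝ) + 1 := by rw [hc]; field_simp
  have hc11 : c ≤ 1 / 11 := by
    rw [hc, div_le_div_iff₀ hM0 (by norm_num)]
    linarith
  rw [← hc] at hy ⊢
  obtain ⟨R, r, β, μ, T⟩ := KR7.exists_trim (ζ := 3 * c) (τ := 1) (q := 1 / 48) Q y hk2 hM10 hy hs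
    (by norm_num) (by linarith)
  obtain ⟨hkr, _, h56, hRM, _, h4, hR0', hR0⟩ := T.nums hk2 hM10
  obtain ⟨k, hk⟩ : ∃ k : ℝ, k = ((κ + 1 : ℕ) : ℝ) := ⟨_, rfl⟩
  have hk' : k = (κ : ℝ) + 1 := by rw [hk]; push_cast; ring
  rw [← hk] at hkr
  have hk0 : 0 < k := by linarith
  obtain ⟨V, hV⟩ : ∃ V, V = vr (fun x => y x - μ) (κ + 1) R := ⟨_, rfl⟩
  have hV0 := T.vnn hk2 hM10
  rw [← hV] at hV0
  obtain ⟨e, he⟩ : ∃ e : ℝ, e = k / R.card := ⟨_, rfl⟩
  have he0 : 0 < e := by rw [he]; positivity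
  have heR : e * R.card = k := by rw [he]; field_simp
  have hec : e ≤ 10 / 9 * c := by
    rw [he, div_le_iff₀ hR0]
    have h5 : c * (9 / 10 * Q.card) ≤ c * R.card := mul_le_mul_of_nonneg_left h56 hc0.le
    linarith
  have hce : c ≤ e := by
    rw [hc, he, ← hk']
    exact div_le_div_of_nonneg_left hk0.le hR0 hRM
  have htl := T.t_low hk2 hM10
  rw [← hk, ← he] at htl
  have hβ := T.beta
  have he2 : 0 < e ^ 2 := by positivity
  obtain ⟨t, ht⟩ : ∃ t, t = k * μ := ⟨_, rfl⟩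
  rw [← ht] at htl
  have hmain : V ≤ 17 / 2 * e ^ 2 ∧ t ≤ 13 / 50 * e ∧ -t ≤ e := by
    rcases le_or_gt 0 μ with hμ | hμ
    · have ht0 : 0 ≤ t := by rw [ht]; positivity
      have h6 := T.v_pos hk2 hM10 hμ (Z := 15 / 2 * e) (by positivity) (by linarith)
        (by rw [← hk, ← he]; linarith)
      have h7 := T.t_sq hk2 hM10 hμ
      rw [← hV] at h6 h7
      rw [← hk, ← ht] at h7
      have h8 : V ≤ 303 / 100 * e ^ 2 := by linarith
      have h9 : t ^ 2 ≤ (13 / 50 * e) ^ 2 := by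
        have e1 : (13 / 50 * e) ^ 2 = 169 / 2500 * e ^ 2 := by ring
        rw [e1]
        linarith
      have h10 : t ≤ 13 / 50 * e := by
        by_contra hcon
        push Not at hcon
        have h11 : (13 / 50 * e) ^ 2 < t ^ 2 := pow_lt_pow_left₀ hcon (by positivity) two_ne_zero
        linarith
      exact ⟨by linarith, h10, by linarith⟩
    · have hg : 0 < 13 / 2 * e := by positivity
      have ht0 : t ≤ 0 := by rw [ht]; nlinarith
      have htl2 : -t ≤ e := by linarith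
      have hμ2 : -μ ≤ -t / 2 := by
        have e1 : k * (-μ) = -t := by rw [ht]; ring
        nlinarith
      have he1 : 13 / 2 * e ≠ 0 := hg.ne'
      rcases le_or_gt (e / 2) (-t) with h12 | h12
      · have hB1 : 3 * c - μ ≤ 15 / 4 * e := by linarith
        have hB2 : β ≤ 15 / 4 * e := by linarith
        have h6 := T.v_neg hk2 hM10 hμ.le (B := 15 / 4 * e) (by positivity) hB1 hB2
          (g := 13 / 2 * e) hg
        rw [← hV, ← hk, ← ht] at h6
        have hdiv : 49 / 200 * (-t) / (13 / 2 * e) ≤ 49 / 1300 := by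
          rw [div_le_iff₀ hg]
          linarith
        have h8 : (1 / 48 + 49 / 200 * (-t) / (13 / 2 * e)) * (3 * V + (15 / 4 * e) ^ 2)
            ≤ (1 / 48 + 49 / 1300) * (3 * V + (15 / 4 * e) ^ 2) :=
          mul_le_mul_of_nonneg_right (by linarith) (by positivity)
        have ht2 : t ^ 2 ≤ e ^ 2 := by
          apply sq_le_sq'
          · linarith
          · linarith
        have hte : 49 / 200 * (-t) * (13 / 2 * e) ≤ 49 / 200 * e * (13 / 2 * e) :=
          mul_le_mul_of_nonneg_right (by linarith) hg.le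
        have h9 : V ≤ 121 / 10 * e ^ 2 := by nlinarith
        have h10 := T.v_ref hk2 hM10 hμ.le hB1 hB2 (m := -t) (by rw [ht, hk]) (ρ := 6 * e)
          (by linarith)
        rw [← hV] at h10
        exact ⟨ref_num he0 h12 htl2 h9 h10, by linarith, htl2⟩
      · rcases le_or_gt (e / 4) (-t) with h14 | h14
        · have hB1 : 3 * c - μ ≤ 45 / 8 * e := by linarith
          have hB2 : β ≤ 45 / 8 * e := by linarith
          have h6 := T.v_neg hk2 hM10 hμ.le (B := 45 / 8 * e) (by positivity) hB1 hB2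
            (g := 13 / 2 * e) hg
          rw [← hV, ← hk, ← ht] at h6
          have hdiv : 49 / 200 * (-t) / (13 / 2 * e) ≤ 49 / 2600 := by
            rw [div_le_iff₀ hg]
            linarith
          have h8 : (1 / 48 + 49 / 200 * (-t) / (13 / 2 * e)) * (3 * V + (45 / 8 * e) ^ 2)
              ≤ (1 / 48 + 49 / 2600) * (3 * V + (45 / 8 * e) ^ 2) :=
            mul_le_mul_of_nonneg_right (by linarith) (by positivity)
          have ht2 : t ^ 2 ≤ (e / 2) ^ 2 := by
            apply sq_le_sq'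
            · linarith
            · linarith
          have hte : 49 / 200 * (-t) * (13 / 2 * e) ≤ 49 / 200 * (e / 2) * (13 / 2 * e) :=
            mul_le_mul_of_nonneg_right (by linarith) hg.le
          exact ⟨by nlinarith, by linarith, htl2⟩
        · have hB1 : 3 * c - μ ≤ 15 / 2 * e := by linarith
          have hB2 : β ≤ 15 / 2 * e := by linarith
          have h6 := T.v_neg hk2 hM10 hμ.le (B := 15 / 2 * e) (by positivity) hB1 hB2
            (g := 13 / 2 * e) hg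
          rw [← hV, ← hk, ← ht] at h6
          have hdiv : 49 / 200 * (-t) / (13 / 2 * e) ≤ 49 / 5200 := by
            rw [div_le_iff₀ hg]
            linarith
          have h8 : (1 / 48 + 49 / 200 * (-t) / (13 / 2 * e)) * (3 * V + (15 / 2 * e) ^ 2)
              ≤ (1 / 48 + 49 / 5200) * (3 * V + (15 / 2 * e) ^ 2) :=
            mul_le_mul_of_nonneg_right (by linarith) (by positivity)
          have ht2 : t ^ 2 ≤ (e / 4) ^ 2 := by
            apply sq_le_sq'
            · linarith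
            · linarith
          have hte : 49 / 200 * (-t) * (13 / 2 * e) ≤ 49 / 200 * (e / 4) * (13 / 2 * e) :=
            mul_le_mul_of_nonneg_right (by linarith) hg.le
          exact ⟨by nlinarith, by linarith, htl2⟩
  obtain ⟨hV1, ht1, ht2⟩ := hmain
  -- the sum
  have hμR : ∑ x ∈ R, y x = R.card * μ := by rw [T.mu]; field_simp
  have hsumR : ∑ x ∈ R, y x ≤ 13 / 50 := by
    have h1 : e * ∑ x ∈ R, y x ≤ e * (13 / 50) := by
      rw [hμR]
      calc e * (R.card * μ) = (e * R.card) * μ := by ring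
        _ = t := by rw [heR, ht]
        _ ≤ _ := by linarith
    exact le_of_mul_le_mul_left h1 he0
  have hcard : (Q \ R).card = r := by
    have h1 := card_sdiff_of_subset T.sub
    have h2 := T.card
    omega
  refine ⟨R, T.sub, T.off, ?_, hsumR, ?_, ?_⟩
  · have h1 := sum_sdiff (f := y) T.sub
    linarith
  · -- second moment
    have hsq := sq_centre R y hR0' T.mu
    obtain ⟨A, hA⟩ : ∃ A, A = ∑ x ∈ R, (y x - μ) ^ 2 := ⟨_, rfl⟩
    have hA0 : 0 ≤ A := by rw [hA]; exact sum_nonneg (fun x _ => sq_nonneg _)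
    rw [hsq, ← hA]
    have hR4 : (4 : ℝ) < R.card := by
      have : (k : ℝ) + 4 ≤ R.card := by rw [hk]; exact_mod_cast h4
      linarith
    have hVA : V = (r1 k R.card - r2 k R.card) * A := by
      rw [hV, hA, hk]
      rfl
    rw [coef_V _ _ hR4] at hVA
    have he15 : e ≤ 10 / 99 := by linarith
    have hcoef : 89 / 99 * e ≤ k * (R.card - k) / (R.card * (R.card - 1)) := by
      rw [le_div_iff₀ (mul_pos hR0 (by linarith))]
      have h1 : 89 / 99 * e * (R.card * (R.card - 1)) = 89 / 99 * k * (R.card - 1) := by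
        rw [← heR]; ring
      rw [h1]
      have h2 : k ≤ 10 / 99 * R.card := by
        rw [← heR]
        exact mul_le_mul_of_nonneg_right he15 hR0.le
      have h3 : 89 / 99 * (R.card - 1 : ℝ) ≤ R.card - k := by linarith
      calc 89 / 99 * k * (R.card - 1) = k * (89 / 99 * (R.card - 1 : ℝ)) := by ring
        _ ≤ _ := mul_le_mul_of_nonneg_left h3 hk0.le
    have h5 : 89 / 99 * e * A ≤ 17 / 2 * e ^ 2 := by
      refine le_trans ?_ hV1
      rw [hVA]
      exact mul_le_mul_of_nonneg_right hcoef hA0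
    have h6 : A ≤ 473 / 50 * e := by
      have h7 : e * A ≤ e * (473 / 50 * e) := by nlinarith
      exact le_of_mul_le_mul_left h7 he0
    have h7 : R.card * μ ^ 2 ≤ e / 2 := by
      have h8 : k * (R.card * μ ^ 2 * e) ≤ k * (e / 2 * e) := by
        have e1 : k * (R.card * μ ^ 2 * e) = t ^ 2 := by
          rw [ht]
          calc k * (R.card * μ ^ 2 * e) = k * μ ^ 2 * (e * R.card) := by ring
            _ = _ := by rw [heR]; ring
        rw [e1]
        have ht3 : t ^ 2 ≤ e ^ 2 := by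
          apply sq_le_sq'
          · linarith
          · linarith
        nlinarith
      have h9 := le_of_mul_le_mul_left h8 hk0
      exact le_of_mul_le_mul_right h9 he0
    linarith
  · rw [hcard]
    exact T.r1

end

end Pool.Agent.KR7
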