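import Pool.Agent.KR7.Third

/-!
# The probability to exceed a positive level
-/

namespace Pool.Agent.KR7

open Finset AK Pool.Agent.KR5 Pool.Agent.KR6

theorem quart_up {r m s : ℝ} (hm : 0 ≤ m) (hr : m < r) :
    (s + r) ^ 2 * (s - m) * (2 * r - m - s)
      ≤ (5 * r - 3 * m) ^ 4 / 128 * (if m < s then 1 else 0) := by
  split_ifs with h
  · rw [mul_one]
    rcases le_or_gt (2 * r - m) s with hs | hs
    · have h1 : (s + r) ^ 2 * (s - m) * (2 * r - m - s) ≤ 0 := by
        apply mul_nonpos_of_nonneg_of_nonpos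
        · apply mul_nonneg (sq_nonneg _)
          linarith
        · linarith
      refine h1.trans ?_
      positivity
    · have h1 : (s - m) * (2 * r - m - s) ≤ 1 / 8 * (4 * r - 3 * m - s) ^ 2 := by
        nlinarith [sq_nonneg (s - m - 2 * (2 * r - m - s))]
      have h2 : 0 ≤ (s + r) * (4 * r - 3 * m - s) := by
        apply mul_nonneg
        · linarith
        · linarith
      have h3 : (s + r) * (4 * r - 3 * m - s) ≤ ((5 * r - 3 * m) / 2) ^ 2 := by
        nlinarith [sq_nonneg ((s + r) - (4 * r - 3 * m - s))]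
      have h4 : ((s + r) * (4 * r - 3 * m - s)) ^ 2
          ≤ (((5 * r - 3 * m) / 2) ^ 2) ^ 2 := pow_le_pow_left₀ h2 h3 2
      calc (s + r) ^ 2 * (s - m) * (2 * r - m - s)
          = (s + r) ^ 2 * ((s - m) * (2 * r - m - s)) := by ring
        _ ≤ (s + r) ^ 2 * (1 / 8 * (4 * r - 3 * m - s) ^ 2) :=
            mul_le_mul_of_nonneg_left h1 (sq_nonneg _)
        _ = 1 / 8 * ((s + r) * (4 * r - 3 * m - s)) ^ 2 := by ring
        _ ≤ 1 / 8 * (((5 * r - 3 * m) / 2) ^ 2) ^ 2 := by linarith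
        _ = _ := by ring
  · rw [mul_zero]
    push Not at h
    have h1 : (s + r) ^ 2 * (s - m) ≤ 0 :=
      mul_nonpos_of_nonneg_of_nonpos (sq_nonneg _) (by linarith)
    exact mul_nonpos_of_nonpos_of_nonneg h1 (by linarith)

/-- the refined bound -/
theorem shift_up {E : (ℝ → ℝ) → ℝ} {V U : ℝ} (hE : Mean E V U) {m B r q : ℝ} (hm : 0 ≤ m)
    (hr : m < r) (hU : U ≤ 3 * V ^ 2 + B ^ 2 * V)
    (hq : E (fun s => if m < s then 1 else 0) ≤ q) :
    (3 * r ^ 2 - m * (2 * r - m)) * V - r ^ 2 * m * (2 * r - m) - 3 * V ^ 2 - B ^ 2 * V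
      ≤ q * ((5 * r - 3 * m) ^ 4 / 128) := by
  obtain ⟨H, hH⟩ : ∃ H : ℝ, H = (5 * r - 3 * m) ^ 4 / 128 := ⟨_, rfl⟩
  have hH0 : 0 < H := by
    rw [hH]
    have : 0 < 5 * r - 3 * m := by linarith
    positivity
  have h1 : E (fun s => (-(r ^ 2 * m * (2 * r - m))) / H
        + ((2 * r ^ 3 - 2 * r * m * (2 * r - m)) / H * s
        + ((3 * r ^ 2 - m * (2 * r - m)) / H * s ^ 2
        + (-1) / H * s ^ 4))) ≤ E (fun s => if m < s then 1 else 0) := by
    apply hE.mono
    intro s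
    have h2 := quart_up (s := s) hm hr
    rw [← hH] at h2
    have h3 : (s + r) ^ 2 * (s - m) * (2 * r - m - s) / H ≤ (if m < s then 1 else 0) := by
      rw [div_le_iff₀ hH0]
      linarith
    refine le_trans (le_of_eq ?_) h3
    field_simp
    ring
  rw [hE.poly] at h1
  have h2 := h1.trans hq
  have h3 := mul_le_mul_of_nonneg_right h2 hH0.le
  have e : ((-(r ^ 2 * m * (2 * r - m))) / H + ((3 * r ^ 2 - m * (2 * r - m)) / H * V
      + (-1) / H * U)) * H
      = (3 * r ^ 2 - m * (2 * r - m)) * V - r ^ 2 * m * (2 * r - m) - U := by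
    field_simp
    ring
  rw [e] at h3
  rw [← hH]
  linarith

end Pool.Agent.KR7
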