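import Pool.Agent.KR6.Tail

/-!
# A tail bound from four moments with a cubic correction
-/

namespace Pool.Agent.KR7

open Finset AK Pool.Agent.KR5 Pool.Agent.KR6

/-- a positive linear functional with given moments up to the fourth and first moment zero -/
structure Mean3 (E : (ℝ → ℝ) → ℝ) (V T U : ℝ) : Prop where
  mono : ∀ F G : ℝ → ℝ, (∀ s, F s ≤ G s) → E F ≤ E G
  poly : ∀ c0 c1 c2 c3 c4 : ℝ,
    E (fun s => c0 + (c1 * s + (c2 * s ^ 2 + (c3 * s ^ 3 + c4 * s ^ 4))))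
      = c0 + (c2 * V + (c3 * T + c4 * U))

theorem Mean3.toMean {E : (ℝ → ℝ) → ℝ} {V T U : ℝ} (hE : Mean3 E V T U) : Mean E V U := by
  refine ⟨hE.mono, ?_⟩
  intro c0 c1 c2 c4
  have e : (fun s : ℝ => c0 + (c1 * s + (c2 * s ^ 2 + c4 * s ^ 4)))
      = (fun s => c0 + (c1 * s + (c2 * s ^ 2 + (0 * s ^ 3 + c4 * s ^ 4)))) := by
    funext s
    ring
  rw [e, hE.poly]
  ring

theorem scalar_ineq {ρ t V Z : ℝ} (hρ : 0 < ρ) (ht : 0 ≤ t) (htρ : t ≤ ρ) (hV : 0 ≤ V)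
    (hZ : 0 < Z) (hG : 3 * V + Z ^ 2 = 3 / 2 * ρ ^ 2) :
    9 * V * (5 * ρ + 9 / 2 * t) ^ 4 ≤ 3840 * ρ ^ 2 * ((ρ + 7 / 2 * t) ^ 2 * t * (2 * ρ)
      + (t * (2 * ρ) + 2 * (ρ + 7 / 2 * t) * (2 * ρ - t) - (ρ + 7 / 2 * t) ^ 2) * V
      - 3 * V ^ 2 - (8 * t + Z) * Z * V) := by
  have hV2 : V ≤ 1 / 2 * ρ ^ 2 := by nlinarith
  have hZ2 : Z ^ 2 = 3 / 2 * ρ ^ 2 - 3 * V := by linarith
  -- the linear term
  have hT1 : 0 ≤ 7680 * ρ ^ 3 + 6630 * ρ * V - 30720 * Z * V := by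
    have h1 : 0 ≤ ρ * (7680 * ρ ^ 3 + 6630 * ρ * V - 30720 * Z * V) := by
      have h2 : 7 / 5 * ρ * Z ≤ Z ^ 2 + 49 / 100 * ρ ^ 2 := by nlinarith [sq_nonneg (Z - 7 / 10 * ρ)]
      have h3 : 7 / 5 * ρ * Z * V ≤ (Z ^ 2 + 49 / 100 * ρ ^ 2) * V := mul_le_mul_of_nonneg_right h2 hV
      have h4 : 0 ≤ 7680 * ρ ^ 4 - 37036 * (ρ ^ 2 * V) + 65820 * V ^ 2 := by
        nlinarith [sq_nonneg (ρ ^ 2 - 37 / 15 * V), sq_nonneg V]
      rw [hZ2] at h3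
      nlinarith [sq_nonneg V, mul_nonneg (sq_nonneg ρ) hV]
    exact nonneg_of_mul_nonneg_right h1 hρ
  have hT2 : 0 ≤ 53760 * ρ ^ 2 - 202515 / 2 * V := by nlinarith
  have hT3 : 0 ≤ ρ * (94080 * ρ ^ 2 - 32805 / 2 * V) - 59049 / 16 * V * t := by
    have h1 : V * t ≤ 1 / 2 * ρ ^ 2 * ρ := mul_le_mul hV2 htρ ht (by positivity)
    nlinarith [mul_le_mul_of_nonneg_left hV2 hρ.le]
  have h1 : 0 ≤ ρ ^ 2 * t * (7680 * ρ ^ 3 + 6630 * ρ * V - 30720 * Z * V) :=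
    mul_nonneg (by positivity) hT1
  have h2 : 0 ≤ ρ ^ 2 * t ^ 2 * (53760 * ρ ^ 2 - 202515 / 2 * V) :=
    mul_nonneg (by positivity) hT2
  have h3 : 0 ≤ t ^ 3 * (ρ * (94080 * ρ ^ 2 - 32805 / 2 * V) - 59049 / 16 * V * t) :=
    mul_nonneg (by positivity) hT3
  have h4 : 0 ≤ 135 * ρ ^ 4 * V := by positivity
  have e : 3840 * ρ ^ 2 * ((ρ + 7 / 2 * t) ^ 2 * t * (2 * ρ)
      + (t * (2 * ρ) + 2 * (ρ + 7 / 2 * t) * (2 * ρ - t) - (ρ + 7 / 2 * t) ^ 2) * V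
      - 3 * V ^ 2 - (8 * t + Z) * Z * V) - 9 * V * (5 * ρ + 9 / 2 * t) ^ 4
      = 135 * ρ ^ 4 * V + ρ ^ 2 * t * (7680 * ρ ^ 3 + 6630 * ρ * V - 30720 * Z * V)
        + ρ ^ 2 * t ^ 2 * (53760 * ρ ^ 2 - 202515 / 2 * V)
        + t ^ 3 * (ρ * (94080 * ρ ^ 2 - 32805 / 2 * V) - 59049 / 16 * V * t)
        + 3840 * ρ ^ 2 * V * (3 / 2 * ρ ^ 2 - 3 * V - Z ^ 2) := by ring
  rw [hZ2] at e
  linarith

/-- the quartic -/
theorem quart_le {ρ t s : ℝ} (hρ : 0 < ρ) (ht : 0 ≤ t) :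
    (s + (ρ + 7 / 2 * t)) ^ 2 * (s + t) * (2 * ρ - s)
      ≤ (5 * ρ + 9 / 2 * t) ^ 4 / 128 * ind t s := by
  unfold ind
  split_ifs with h
  · rw [mul_one]
    rcases le_or_gt (2 * ρ) s with hs | hs
    · have h1 : (s + (ρ + 7 / 2 * t)) ^ 2 * (s + t) * (2 * ρ - s) ≤ 0 := by
        apply mul_nonpos_of_nonneg_of_nonpos
        · apply mul_nonneg (sq_nonneg _)
          linarith
        · linarith
      refine h1.trans ?_
      positivity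
    · have h1 : (s + t) * (2 * ρ - s) ≤ 1 / 8 * (4 * ρ + t - s) ^ 2 := by
        nlinarith [sq_nonneg (s + t - 2 * (2 * ρ - s))]
      have h2 : 0 ≤ (s + (ρ + 7 / 2 * t)) * (4 * ρ + t - s) := by
        apply mul_nonneg
        · linarith
        · linarith
      have h3 : (s + (ρ + 7 / 2 * t)) * (4 * ρ + t - s) ≤ ((5 * ρ + 9 / 2 * t) / 2) ^ 2 := by
        nlinarith [sq_nonneg ((s + (ρ + 7 / 2 * t)) - (4 * ρ + t - s))]
      have h4 : ((s + (ρ + 7 / 2 * t)) * (4 * ρ + t - s)) ^ 2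
          ≤ (((5 * ρ + 9 / 2 * t) / 2) ^ 2) ^ 2 := pow_le_pow_left₀ h2 h3 2
      calc (s + (ρ + 7 / 2 * t)) ^ 2 * (s + t) * (2 * ρ - s)
          = (s + (ρ + 7 / 2 * t)) ^ 2 * ((s + t) * (2 * ρ - s)) := by ring
        _ ≤ (s + (ρ + 7 / 2 * t)) ^ 2 * (1 / 8 * (4 * ρ + t - s) ^ 2) :=
            mul_le_mul_of_nonneg_left h1 (sq_nonneg _)
        _ = 1 / 8 * ((s + (ρ + 7 / 2 * t)) * (4 * ρ + t - s)) ^ 2 := by ring
        _ ≤ 1 / 8 * (((5 * ρ + 9 / 2 * t) / 2) ^ 2) ^ 2 := by linarith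
        _ = _ := by ring
  · rw [mul_zero]
    push Not at h
    have h1 : (s + (ρ + 7 / 2 * t)) ^ 2 * (s + t) ≤ 0 :=
      mul_nonpos_of_nonneg_of_nonpos (sq_nonneg _) (by linarith)
    exact mul_nonpos_of_nonpos_of_nonneg h1 (by linarith)

/-- the tail bound -/
theorem third_low {E : (ℝ → ℝ) → ℝ} {V T U : ℝ} (hE : Mean3 E V T U) {t Z : ℝ} (ht : 0 ≤ t)
    (hV : 0 ≤ V) (hZ : 0 < Z) (hU : U + 8 * t * T ≤ 3 * V ^ 2 + (8 * t + Z) * Z * V) :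
    9 / 20 * V ≤ E (fun s => ind t s) * (3 * V + Z ^ 2) := by
  obtain ⟨ρ, hρ, hG⟩ : ∃ ρ : ℝ, 0 < ρ ∧ 3 * V + Z ^ 2 = 3 / 2 * ρ ^ 2 := by
    have hpos : 0 < 2 / 3 * (3 * V + Z ^ 2) := by positivity
    refine ⟨Real.sqrt (2 / 3 * (3 * V + Z ^ 2)), Real.sqrt_pos.2 hpos, ?_⟩
    rw [Real.sq_sqrt hpos.le]
    ring
  obtain ⟨p, hp⟩ : ∃ p, p = E (fun s => ind t s) := ⟨_, rfl⟩
  rw [← hp]
  rcases le_or_gt t ρ with htρ | htρ
  · obtain ⟨H, hH⟩ : ∃ H : ℝ, H = (5 * ρ + 9 / 2 * t) ^ 4 / 128 := ⟨_, rfl⟩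
    have hH0 : 0 < H := by rw [hH]; positivity
    have h1 : E (fun s => (ρ + 7 / 2 * t) ^ 2 * t * (2 * ρ) / H
          + (((ρ + 7 / 2 * t) ^ 2 * (2 * ρ - t) + 2 * (ρ + 7 / 2 * t) * t * (2 * ρ)) / H * s
          + ((t * (2 * ρ) + 2 * (ρ + 7 / 2 * t) * (2 * ρ - t) - (ρ + 7 / 2 * t) ^ 2) / H * s ^ 2
          + ((-(8 * t)) / H * s ^ 3 + (-1) / H * s ^ 4)))) ≤ E (fun s => ind t s) := by
      apply hE.mono
      intro s
      have h2 := quart_le (s := s) hρ ht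
      rw [← hH] at h2
      have h3 : (s + (ρ + 7 / 2 * t)) ^ 2 * (s + t) * (2 * ρ - s) / H ≤ ind t s := by
        rw [div_le_iff₀ hH0]
        linarith
      refine le_trans (le_of_eq ?_) h3
      field_simp
      ring
    rw [hE.poly, ← hp] at h1
    have h2 : (ρ + 7 / 2 * t) ^ 2 * t * (2 * ρ)
        + (t * (2 * ρ) + 2 * (ρ + 7 / 2 * t) * (2 * ρ - t) - (ρ + 7 / 2 * t) ^ 2) * V
        - 3 * V ^ 2 - (8 * t + Z) * Z * V ≤ p * H := by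
      have h3 : ((ρ + 7 / 2 * t) ^ 2 * t * (2 * ρ) / H
          + ((t * (2 * ρ) + 2 * (ρ + 7 / 2 * t) * (2 * ρ - t) - (ρ + 7 / 2 * t) ^ 2) / H * V
          + ((-(8 * t)) / H * T + (-1) / H * U))) * H ≤ p * H :=
        mul_le_mul_of_nonneg_right h1 hH0.le
      have e : ((ρ + 7 / 2 * t) ^ 2 * t * (2 * ρ) / H
          + ((t * (2 * ρ) + 2 * (ρ + 7 / 2 * t) * (2 * ρ - t) - (ρ + 7 / 2 * t) ^ 2) / H * V
          + ((-(8 * t)) / H * T + (-1) / H * U))) * H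
          = (ρ + 7 / 2 * t) ^ 2 * t * (2 * ρ)
          + (t * (2 * ρ) + 2 * (ρ + 7 / 2 * t) * (2 * ρ - t) - (ρ + 7 / 2 * t) ^ 2) * V
          - (U + 8 * t * T) := by
        field_simp
        ring
      rw [e] at h3
      linarith
    have h3 := scalar_ineq hρ ht htρ hV hZ hG
    have h4 : 9 * V * (5 * ρ + 9 / 2 * t) ^ 4 ≤ 3840 * ρ ^ 2 * (p * H) :=
      h3.trans (mul_le_mul_of_nonneg_left h2 (by positivity))
    have h5 : 128 * H = (5 * ρ + 9 / 2 * t) ^ 4 := by rw [hH]; ring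
    rw [← h5] at h4
    have h6 : H * (9 / 20 * V) ≤ H * (p * (3 * V + Z ^ 2)) := by
      rw [hG]
      nlinarith
    exact le_of_mul_le_mul_left h6 hH0
  · have h1 := cant hE.toMean (lt_trans hρ htρ) hV
    rw [← hp] at h1
    have hV2 : V ≤ 1 / 2 * ρ ^ 2 := by nlinarith
    have h2 : ρ ^ 2 ≤ t ^ 2 := pow_le_pow_left₀ hρ.le htρ.le 2
    have ht2 : 0 < t ^ 2 := by nlinarith
    have h3 : 2 / 3 ≤ p := by
      by_contra hcon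
      push Not at hcon
      have h4 : p * (t ^ 2 + V) < t ^ 2 := by
        rcases le_or_gt p 0 with h0 | h0
        · have : p * (t ^ 2 + V) ≤ 0 := mul_nonpos_of_nonpos_of_nonneg h0 (by positivity)
          linarith
        · nlinarith
      linarith
    nlinarith [mul_le_mul_of_nonneg_right h3 (by positivity : 0 ≤ 3 * V + Z ^ 2)]

end Pool.Agent.KR7
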