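import Pool.Agent.KR7.Mom
import Pool.Agent.KR7.Shift
import Pool.Agent.KR6.Core

/-!
# Few positive sets: trimming
-/

namespace Pool.Agent.KR7

open Finset AK Pool.Agent.KR5 Pool.Agent.KR6

section
variable {ι : Type*} [DecidableEq ι]

/-- the trimmed population -/
structure Trim (P R : Finset ι) (y : ι → ℝ) (k r : ℕ) (ζ τ β μ q : ℝ) : Prop where
  sub : R ⊆ P
  card : R.card + r = P.card
  r1 : 5 * k * r ≤ P.card
  r2 : 2 * P.card ≤ 15 * k * r
  beta : 0 ≤ β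
  mu : μ = (∑ x ∈ R, y x) / R.card
  off : ∀ x ∈ P \ R, y x ≤ 0
  low : ∀ x ∈ R, -β ≤ y x
  up : ∀ x ∈ R, y x ≤ ζ
  sum : r * β - τ ≤ ∑ x ∈ R, y x
  prob : ∀ F : ℝ → ℝ, (∀ s, F s ≤ if 0 < s + k * μ then 1 else 0) →
    sv (fun x => y x - μ) k R F ≤ q

theorem exists_trim {k : ℕ} (P : Finset ι) (y : ι → ℝ) (hk : 2 ≤ k) (hM : 10 * k ≤ P.card)
    {ζ τ q : ℝ} (hy : ∀ x ∈ P, y x ≤ ζ) (hs : -τ ≤ ∑ x ∈ P, y x) (hq : q < 1)
    (hb : (KR5.pos k y P : ℝ) ≤ 4 / 5 * q * (P.card.choose k : ℝ)) :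
    ∃ R r β μ, Trim P R y k r ζ τ β μ q := by
  obtain ⟨M, hMd⟩ : ∃ M, M = P.card := ⟨_, rfl⟩
  rw [← hMd] at hM hb
  obtain ⟨r, hr⟩ : ∃ r, r = M / (5 * k) := ⟨_, rfl⟩
  have hr1 : 5 * k * r ≤ M := by rw [hr]; exact Nat.mul_div_le _ _
  have hr2 : M < 5 * k * (r + 1) := by rw [hr]; exact Nat.lt_mul_div_succ _ (by omega)
  have hr0 : 2 ≤ r := by
    rw [hr, Nat.le_div_iff_mul_le (by omega)]
    omega
  have hr3 : 2 * M ≤ 15 * k * r := by
    have h1 : 5 * k * (r + 1) * 2 ≤ 15 * k * r := by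
      have h2 : 5 * k * 2 ≤ 5 * k * r := Nat.mul_le_mul_left _ hr0
      nlinarith
    omega
  have h6r : 10 * r ≤ 5 * k * r := Nat.mul_le_mul_right _ (by omega)
  have hrM : 10 * r ≤ M := by omega
  obtain ⟨R, hRP, hRc, hR⟩ := top_part P y r (by omega)
  rw [← hMd] at hRc
  have hkr : (2 : ℝ) ≤ k := by exact_mod_cast hk
  have hMr : 10 * (k : ℝ) ≤ M := by exact_mod_cast hM
  have hM0 : (0 : ℝ) < M := by linarith
  have hM0' : 0 < M := by exact_mod_cast hM0
  have hr1r : 5 * (k : ℝ) * r ≤ M := by exact_mod_cast hr1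
  have hRn : R.card = M - r := by omega
  have hkR : k ≤ R.card := by omega
  have hRpos : 0 < R.card := by omega
  have hav : 4 / 5 * (M.choose k : ℝ) ≤ (R.card.choose k : ℝ) := by
    have h1 := choose_avoid M k hM0' r (by omega)
    rw [← hRn] at h1
    have h2 : (k : ℝ) * r / M ≤ 1 / 5 := by
      rw [div_le_div_iff₀ hM0 (by norm_num)]
      linarith
    have h3 : (M.choose k : ℝ) * (4 / 5) ≤ (M.choose k : ℝ) * (1 - (k : ℝ) * r / M) :=
      mul_le_mul_of_nonneg_left (by linarith) (Nat.cast_nonneg _)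
    linarith
  have hCR : (0 : ℝ) < (R.card.choose k : ℝ) := by exact_mod_cast Nat.choose_pos hkR
  have hCM : (0 : ℝ) < (M.choose k : ℝ) := by exact_mod_cast Nat.choose_pos (by omega)
  have hq0 : 0 ≤ q := by
    have h1 : (0 : ℝ) ≤ KR5.pos k y P := Nat.cast_nonneg _
    by_contra hcon
    push Not at hcon
    have : 4 / 5 * q * (M.choose k : ℝ) < 0 := by
      apply mul_neg_of_neg_of_pos _ hCM
      linarith
    linarith
  have hposR : (KR5.pos k y R : ℝ) ≤ q * (R.card.choose k : ℝ) := by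
    have h1 : (KR5.pos k y R : ℝ) ≤ KR5.pos k y P := by exact_mod_cast pos_mono k y hRP
    have h2 : q * (4 / 5 * (M.choose k : ℝ)) ≤ q * (R.card.choose k : ℝ) :=
      mul_le_mul_of_nonneg_left hav hq0
    linarith
  obtain ⟨μ, hμ⟩ : ∃ μ, μ = (∑ x ∈ R, y x) / R.card := ⟨_, rfl⟩
  have hprob : ∀ F : ℝ → ℝ, (∀ s, F s ≤ if 0 < s + k * μ then 1 else 0) →
      sv (fun x => y x - μ) k R F ≤ q := by
    intro F hF
    refine (sv_mono _ _ _ _ _ hF).trans ?_
    have h1 := sv_eq (fun x => y x - μ) k R (fun s => if 0 < s + k * μ then 1 else 0) hkR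
    have h2 : ∑ V ∈ powersetCard k R, (if 0 < ∑ x ∈ V, (y x - μ) + k * μ then (1 : ℝ) else 0)
        = KR5.pos k y R := by
      unfold KR5.pos
      rw [card_filter]
      push_cast
      apply sum_congr rfl
      intro V hV
      rw [mem_powersetCard] at hV
      rw [sum_sub_distrib, sum_const, nsmul_eq_mul, hV.2, sub_add_cancel]
    rw [h2] at h1
    rw [← h1] at hposR
    exact le_of_mul_le_mul_right hposR hCR
  obtain ⟨x0, hx0, hmin⟩ := exists_min_image R y (card_pos.1 hRpos)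
  obtain ⟨β, hβ⟩ : ∃ β, β = -y x0 := ⟨_, rfl⟩
  have hβR : ∀ x ∈ R, -β ≤ y x := by
    intro x hx
    rw [hβ, neg_neg]
    exact hmin x hx
  have hβP : ∀ z ∈ P \ R, y z ≤ -β := by
    intro z hz
    rw [hβ, neg_neg]
    exact hR x0 hx0 z hz
  rcases lt_or_ge β 0 with hβ0 | hβ0
  · exfalso
    have h1 : KR5.pos k y R = R.card.choose k := by
      unfold KR5.pos
      rw [filter_true_of_mem, card_powersetCard]
      intro V hV
      rw [mem_powersetCard] at hV
      apply Finset.sum_pos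
      · intro x hx
        have := hβR x (hV.1 hx)
        linarith
      · rw [← card_pos]
        omega
    rw [h1] at hposR
    nlinarith
  · refine ⟨R, r, β, μ, hRP, by rw [hRc, hMd], by rw [← hMd]; exact hr1, by rw [← hMd]; exact hr3,
      hβ0, hμ, fun x hx => by linarith [hβP x hx], hβR, fun x hx => hy x (hRP hx), ?_, hprob⟩
    have h1 : ∑ x ∈ P \ R, y x ≤ -(r * β) := by
      calc ∑ x ∈ P \ R, y x ≤ ∑ x ∈ P \ R, (-β) := sum_le_sum hβP
        _ = -(r * β) := by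
          rw [sum_const, card_sdiff_of_subset hRP, nsmul_eq_mul, ← hMd, ← hRc,
            Nat.add_sub_cancel_left]
          ring
    have h2 := sum_sdiff (f := y) hRP
    linarith

variable {P R : Finset ι} {y : ι → ℝ} {k r : ℕ} {ζ τ β μ q : ℝ}

/-- numbers -/
theorem Trim.nums (T : Trim P R y k r ζ τ β μ q) (hk : 2 ≤ k) (hM : 10 * k ≤ P.card) :
    (2 : ℝ) ≤ k ∧ 10 * (k : ℝ) ≤ P.card ∧ 9 / 10 * (P.card : ℝ) ≤ R.card ∧
      (R.card : ℝ) ≤ P.card ∧ 8 * k ≤ R.card ∧ k + 4 ≤ R.card ∧ 0 < R.card ∧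
      (0 : ℝ) < R.card := by
  have h1 := T.r1
  have h2 := T.card
  have h6r : 10 * r ≤ 5 * k * r := Nat.mul_le_mul_right _ (by omega)
  have h3 : 9 * P.card ≤ 10 * R.card := by omega
  have h3r : 9 * (P.card : ℝ) ≤ 10 * R.card := by exact_mod_cast h3
  have h4 : R.card ≤ P.card := by omega
  have h4r : (R.card : ℝ) ≤ P.card := by exact_mod_cast h4
  have hkr : (2 : ℝ) ≤ k := by exact_mod_cast hk
  have hMr : 10 * (k : ℝ) ≤ P.card := by exact_mod_cast hM
  refine ⟨hkr, hMr, by linarith, h4r, by omega, by omega, by omega, by linarith⟩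

theorem Trim.t_low (T : Trim P R y k r ζ τ β μ q) (hk : 2 ≤ k) (hM : 10 * k ≤ P.card) :
    β ≤ 15 / 2 * (k * μ + k / R.card * τ) := by
  obtain ⟨hkr, hMr, h56, hRM, _, _, _, hR0⟩ := T.nums hk hM
  have hβ := T.beta
  have h1 := T.sum
  have h2 : 2 * (P.card : ℝ) ≤ 15 * k * r := by exact_mod_cast T.r2
  have hk0 : (0 : ℝ) < k := by linarith
  have h3 : R.card * (k * μ + k / R.card * τ) = k * (∑ x ∈ R, y x + τ) := by
    rw [T.mu]
    field_simp
  have h4 : R.card * β ≤ R.card * (15 / 2 * (k * μ + k / R.card * τ)) := by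
    have e : R.card * (15 / 2 * (k * μ + k / R.card * τ))
        = 15 / 2 * (R.card * (k * μ + k / R.card * τ)) := by ring
    rw [e, h3]
    have h5 : k * (r * β) ≤ k * (∑ x ∈ R, y x + τ) :=
      mul_le_mul_of_nonneg_left (by linarith) hk0.le
    have h6 : R.card * β ≤ P.card * β := mul_le_mul_of_nonneg_right hRM hβ
    have h7 : P.card * β ≤ 15 / 2 * k * r * β :=
      mul_le_mul_of_nonneg_right (by linarith) hβ
    linarith
  exact le_of_mul_le_mul_left h4 hR0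

theorem Trim.centred (T : Trim P R y k r ζ τ β μ q) (hR : 0 < R.card) :
    ∑ x ∈ R, (y x - μ) = 0 := by
  rw [T.mu]
  exact centre_sum R y hR

theorem Trim.mean (T : Trim P R y k r ζ τ β μ q) (hk : 2 ≤ k) (hM : 10 * k ≤ P.card) :
    Mean3 (fun F => sv (fun x => y x - μ) k R F) (vr (fun x => y x - μ) k R)
      (tr (fun x => y x - μ) k R) (fr (fun x => y x - μ) k R) := by
  obtain ⟨_, _, _, _, _, h4, h0, _⟩ := T.nums hk hM
  exact sv_mean3 _ k R h4 (T.centred h0)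

theorem Trim.vnn (T : Trim P R y k r ζ τ β μ q) (hk : 2 ≤ k) (hM : 10 * k ≤ P.card) :
    0 ≤ vr (fun x => y x - μ) k R := by
  obtain ⟨_, _, _, _, _, h4, _, _⟩ := T.nums hk hM
  exact vr_nonneg _ k R h4

theorem Trim.q_nonneg (T : Trim P R y k r ζ τ β μ q) : 0 ≤ q := by
  have h2 := T.prob (fun s => 0) (fun s => by split_ifs <;> norm_num)
  refine le_trans ?_ h2
  exact sv_nonneg _ _ _ _ (fun s => le_rfl)

theorem Trim.ind_le (T : Trim P R y k r ζ τ β μ q) :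
    sv (fun x => y x - μ) k R (fun s => ind (k * μ) s) ≤ q :=
  T.prob (fun s => ind (k * μ) s) (fun s => by
    unfold ind
    have : -(k * μ) < s ↔ 0 < s + k * μ := by
      constructor <;> intro h <;> linarith
    simp only [this]
    exact le_rfl)

/-- the variance, nonnegative mean -/
theorem Trim.v_pos (T : Trim P R y k r ζ τ β μ q) (hk : 2 ≤ k) (hM : 10 * k ≤ P.card)
    (hμ : 0 ≤ μ) {Z : ℝ} (hZ : 0 < Z) (hZ1 : ζ ≤ Z) (hZ2 : 15 / 2 * (k / R.card * τ) ≤ Z) :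
    9 / 20 * vr (fun x => y x - μ) k R ≤ q * (3 * vr (fun x => y x - μ) k R + Z ^ 2) := by
  obtain ⟨hkr, _, _, _, h8, _, _, _⟩ := T.nums hk hM
  have hk0 : (0 : ℝ) < k := by linarith
  have ht : 0 ≤ k * μ := by positivity
  have hV := T.vnn hk hM
  have htl := T.t_low hk hM
  have hμt : μ ≤ k * μ / 2 := by nlinarith
  have h1 := tr_fr (fun x => y x - μ) k R (by omega) h8 (a := Z) (b := 8 * (k * μ) + Z) hZ.le
    (by linarith) (by
      intro x hx
      have := T.low x hx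
      show -(8 * (k * μ) + Z) ≤ y x - μ
      linarith) (by
      intro x hx
      have := T.up x hx
      show y x - μ ≤ Z
      linarith)
  have h2 := third_low (T.mean hk hM) ht hV hZ (by
    have e : 8 * (k * μ) + Z - Z = 8 * (k * μ) := by ring
    rw [e] at h1
    exact h1)
  exact h2.trans (mul_le_mul_of_nonneg_right T.ind_le (by positivity))

/-- the mean against the variance -/
theorem Trim.t_sq (T : Trim P R y k r ζ τ β μ q) (hk : 2 ≤ k) (hM : 10 * k ≤ P.card)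
    (hμ : 0 ≤ μ) : (k * μ) ^ 2 ≤ q * ((k * μ) ^ 2 + vr (fun x => y x - μ) k R) := by
  obtain ⟨hkr, _⟩ := T.nums hk hM
  have hk0 : (0 : ℝ) < k := by linarith
  have hV := T.vnn hk hM
  rcases hμ.lt_or_eq with h | h
  · have ht : 0 < k * μ := by positivity
    have h1 := cant (T.mean hk hM).toMean ht hV
    exact h1.trans (mul_le_mul_of_nonneg_right T.ind_le (by positivity))
  · have h1 : 0 ≤ q * vr (fun x => y x - μ) k R := mul_nonneg T.q_nonneg hV
    have e : (k : ℝ) * μ = 0 := by rw [← h, mul_zero]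
    rw [e, zero_pow two_ne_zero, zero_add]
    exact h1

theorem Trim.fb (T : Trim P R y k r ζ τ β μ q) (hk : 2 ≤ k) (hM : 10 * k ≤ P.card)
    (hμ : μ ≤ 0) {B : ℝ} (hB1 : ζ - μ ≤ B) (hB2 : β ≤ B) :
    fr (fun x => y x - μ) k R ≤ 3 * vr (fun x => y x - μ) k R ^ 2
      + B ^ 2 * vr (fun x => y x - μ) k R := by
  obtain ⟨_, _, _, _, h8, _, _, _⟩ := T.nums hk hM
  apply fr_le8 _ k R (by omega) h8
  intro x hx
  have h1 := T.low x hx
  have h2 := T.up x hx
  apply sq_le_sq'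
  · linarith
  · linarith

theorem Trim.up_le (T : Trim P R y k r ζ τ β μ q) :
    sv (fun x => y x - μ) k R (fun s => if -(k * μ) < s then 1 else 0) ≤ q :=
  T.prob (fun s => if -(k * μ) < s then 1 else 0) (fun s => by
    have : -(k * μ) < s ↔ 0 < s + k * μ := by
      constructor <;> intro h <;> linarith
    simp only [this]
    exact le_rfl)

theorem Trim.v_neg (T : Trim P R y k r ζ τ β μ q) (hk : 2 ≤ k) (hM : 10 * k ≤ P.card)
    (hμ : μ ≤ 0) {B : ℝ} (hB0 : 0 < B) (hB1 : ζ - μ ≤ B) (hB2 : β ≤ B) {g : ℝ} (hg : 0 < g) :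
    9 / 20 * vr (fun x => y x - μ) k R
      ≤ (q + 49 / 200 * (-(k * μ)) / g) * (3 * vr (fun x => y x - μ) k R + B ^ 2)
        + 49 / 200 * (-(k * μ)) * g + 9 / 10 * (k * μ) ^ 2 := by
  obtain ⟨hkr, _⟩ := T.nums hk hM
  have hk0 : (0 : ℝ) < k := by linarith
  have hm : 0 ≤ -(k * μ) := by
    have : k * μ ≤ 0 := mul_nonpos_of_nonneg_of_nonpos hk0.le hμ
    linarith
  have h := shift' (T.mean hk hM).toMean hm (T.vnn hk hM) hB0 (T.fb hk hM hμ hB1 hB2) hg T.up_le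
  rw [neg_sq] at h
  exact h

theorem Trim.v_ref (T : Trim P R y k r ζ τ β μ q) (hk : 2 ≤ k) (hM : 10 * k ≤ P.card)
    (hμ : μ ≤ 0) {B : ℝ} (hB1 : ζ - μ ≤ B) (hB2 : β ≤ B) {m ρ : ℝ} (hm : m = -(k * μ))
    (hρ : m < ρ) :
    (3 * ρ ^ 2 - m * (2 * ρ - m)) * vr (fun x => y x - μ) k R - ρ ^ 2 * m * (2 * ρ - m)
      - 3 * vr (fun x => y x - μ) k R ^ 2 - B ^ 2 * vr (fun x => y x - μ) k R
      ≤ q * ((5 * ρ - 3 * m) ^ 4 / 128) := by
  obtain ⟨hkr, _⟩ := T.nums hk hM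
  have hk0 : (0 : ℝ) < k := by linarith
  have hm0 : 0 ≤ m := by
    have : k * μ ≤ 0 := mul_nonpos_of_nonneg_of_nonpos hk0.le hμ
    rw [hm]
    linarith
  exact shift_up (T.mean hk hM).toMean hm0 hρ (T.fb hk hM hμ hB1 hB2) (by rw [hm]; exact T.up_le)

theorem Trim.ez (T : Trim P R y k r ζ τ β μ q) (hk : 2 ≤ k) (hM : 10 * k ≤ P.card) :
    KR6.ez y k R P ≤ vr (fun x => y x - μ) k R + 3 / 2 * (k * μ) ^ 2 := by
  obtain ⟨_, _, _, _, h8, h4, _, _⟩ := T.nums hk hM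
  exact ez_le y k R P T.sub hk (by omega) h4 T.mu

end

end Pool.Agent.KR7
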